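import Pool.Agent.W_7d29a1_h48.Block

/-!
# The slab insertion lemma, abstract form (helper48)
-/

namespace Pool.Agent.W_7d29a1_h48

open MeasureTheory ProbabilityTheory Finset Pool.Agent.W_7d29a1_f21

noncomputable section

/-- Jensen's inequality for the logarithm of a weighted sum of exponentials. -/
lemma jens {π : Type*} (S : Finset π) {a x : π → ℝ} (ha : ∀ p ∈ S, 0 ≤ a p)
    (hA : 0 < ∑ p ∈ S, a p) :
    Real.log (∑ p ∈ S, a p) + (∑ p ∈ S, a p * x p) / ∑ p ∈ S, a p ≤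
      Real.log (∑ p ∈ S, a p * Real.exp (x p)) := by
  obtain ⟨A, hAd⟩ : ∃ A, A = ∑ p ∈ S, a p := ⟨_, rfl⟩
  rw [← hAd] at hA ⊢
  obtain ⟨M, hM⟩ : ∃ M, M = (∑ p ∈ S, a p * x p) / A := ⟨_, rfl⟩
  have hMA : ∑ p ∈ S, a p * x p = M * A := by rw [hM, div_mul_cancel₀ _ hA.ne']
  have key : Real.exp M * A ≤ ∑ p ∈ S, a p * Real.exp (x p) := by
    have h1 : ∀ p ∈ S, Real.exp M * (a p * (1 + x p - M)) ≤ a p * Real.exp (x p) := by
      intro p hp
      have h2 : 1 + x p - M ≤ Real.exp (x p - M) := by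
        linarith [Real.add_one_le_exp (x p - M)]
      have h3 : Real.exp (x p) = Real.exp M * Real.exp (x p - M) := by
        rw [← Real.exp_add]
        congr 1
        ring
      rw [h3]
      have h4 := mul_le_mul_of_nonneg_left (mul_le_mul_of_nonneg_left h2 (ha p hp))
        (Real.exp_nonneg M)
      linarith
    refine le_trans (le_of_eq ?_) (Finset.sum_le_sum h1)
    rw [← Finset.mul_sum]
    have h5 : ∑ p ∈ S, a p * (1 + x p - M) = (1 - M) * A + ∑ p ∈ S, a p * x p := by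
      rw [hAd, Finset.mul_sum, ← Finset.sum_add_distrib]
      exact Finset.sum_congr rfl fun p _ => by ring
    rw [h5, hMA]
    ring
  have h6 := Real.log_le_log (mul_pos (Real.exp_pos M) hA) key
  rw [Real.log_mul (Real.exp_pos M).ne' hA.ne', Real.log_exp] at h6
  rw [← hM]
  linarith

/-- The entropy of a sub-probability vector. -/
lemma ent {κ : Type*} (S : Finset κ) (hS : S.Nonempty) {n : κ → ℝ} (h0 : ∀ z ∈ S, 0 ≤ n z)
    (h1 : ∑ z ∈ S, n z ≤ 1) : -(Real.log S.card + 1) ≤ ∑ z ∈ S, n z * Real.log (n z) := by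
  obtain ⟨w, hw⟩ : ∃ w : ℝ, w = S.card := ⟨_, rfl⟩
  have hw1 : 1 ≤ w := by
    rw [hw]
    exact_mod_cast hS.card_pos
  have hw0 : 0 < w := by linarith
  have hl0 : 0 ≤ Real.log w := Real.log_nonneg hw1
  have h2 : ∀ z ∈ S, n z - 1 / w ≤ n z * Real.log (n z) + n z * Real.log w := by
    intro z hz
    rcases (h0 z hz).eq_or_lt with h | h
    · rw [← h]
      have : 0 < 1 / w := by positivity
      linarith
    · have h3 := Real.one_sub_inv_le_log_of_pos (mul_pos h hw0)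
      rw [Real.log_mul h.ne' hw0.ne'] at h3
      have h4 := mul_le_mul_of_nonneg_left h3 h.le
      have h5 : n z * (1 - (n z * w)⁻¹) = n z - 1 / w := by
        field_simp
      rw [h5] at h4
      linarith
  have h3 := Finset.sum_le_sum h2
  rw [Finset.sum_sub_distrib, Finset.sum_const, nsmul_eq_mul, ← hw, Finset.sum_add_distrib,
    ← Finset.sum_mul] at h3
  have h4 : w * (1 / w) = 1 := by
    field_simp
  rw [h4] at h3
  have h5 : 0 ≤ ∑ z ∈ S, n z := Finset.sum_nonneg h0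
  have h6 : (∑ z ∈ S, n z) * Real.log w ≤ Real.log w := mul_le_of_le_one_left hl0 h1
  rw [← hw]
  linarith

/-- `Φ` is nondecreasing and `1`-Lipschitz. -/
structure Lip (Φ : ℝ → ℝ) : Prop where
  mono : Monotone Φ
  lip : ∀ u d : ℝ, 0 ≤ d → Φ (u + d) ≤ Φ u + d

lemma Lip.abs_le {Φ : ℝ → ℝ} (h : Lip Φ) (u : ℝ) : |Φ u| ≤ |Φ 0| + |u| := by
  have h1 : |Φ u - Φ 0| ≤ |u| := by
    rcases le_total 0 u with hu | hu
    · have h2 := h.lip 0 u hu
      have h3 := h.mono hu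
      rw [zero_add] at h2
      rw [abs_of_nonneg hu, abs_of_nonneg (by linarith)]
      linarith
    · have h2 := h.lip u (-u) (by linarith)
      have h3 := h.mono hu
      rw [add_neg_cancel] at h2
      rw [abs_of_nonpos hu, abs_of_nonpos (by linarith)]
      linarith
  have h2 : Φ u = Φ 0 + (Φ u - Φ 0) := by ring
  calc |Φ u| = |Φ 0 + (Φ u - Φ 0)| := by rw [← h2]
    _ ≤ |Φ 0| + |Φ u - Φ 0| := abs_add_le _ _
    _ ≤ _ := by linarith

lemma Lip.sub_le {Φ : ℝ → ℝ} (h : Lip Φ) {u v d : ℝ} (hd : 0 ≤ d) (huv : u - d ≤ v) :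
    Φ u ≤ Φ v + d := by
  have h1 := h.lip (u - d) d hd
  rw [sub_add_cancel] at h1
  linarith [h.mono huv]

lemma Lip.integrable {Ω : Type*} [MeasurableSpace Ω] {P : Measure Ω} [IsProbabilityMeasure P]
    {Φ : ℝ → ℝ} (h : Lip Φ) {f : Ω → ℝ} (hf : Measurable f) (hfi : Integrable f P) :
    Integrable (fun g => Φ (f g)) P :=
  ((integrable_const |Φ 0|).add hfi.abs).mono' (h.mono.measurable.comp hf).aestronglyMeasurable
    (Filter.Eventually.of_forall fun g => h.abs_le (f g))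

lemma bdmul {Ω : Type*} [MeasurableSpace Ω] {P : Measure Ω} {f h : Ω → ℝ} (hf : Measurable f)
    (h0 : ∀ g, 0 ≤ f g) (h1 : ∀ g, f g ≤ 1) (hh : Measurable h) (hi : Integrable h P) :
    Integrable (fun g => f g * h g) P := by
  refine hi.abs.mono' (hf.mul hh).aestronglyMeasurable (Filter.Eventually.of_forall fun g => ?_)
  rw [Real.norm_eq_abs, abs_mul, abs_of_nonneg (h0 g)]
  exact mul_le_of_le_one_left (abs_nonneg _) (h1 g)

variable {ι : Type*} {μ : Measure ℝ} [IsProbabilityMeasure μ]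

/-- **The slab insertion lemma**, abstract form. `U p`: weight of the outer environment with the
insertion point `p`; `R p`: cost of the crossing of the slab at `p`; `Q z p`: cost of the two
connections of the core of the block `z`; `G z`: the lucky event of the block `z`. -/
theorem ins_abs {π κ : Type*} (P : Finset π) (Zs : Finset κ) (hZs : Zs.Nonempty)
    (I : κ → Finset π) (hI : ∀ z ∈ Zs, I z ⊆ P)
    (hId : ∀ z ∈ Zs, ∀ z' ∈ Zs, z ≠ z' → Disjoint (I z) (I z'))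
    {U R : π → (ι → ℝ) → ℝ} {Q : κ → π → (ι → ℝ) → ℝ} {L : (ι → ℝ) → ℝ} {Φ : ℝ → ℝ}
    (hΦ : Lip Φ)
    (hUm : ∀ p ∈ P, Measurable (U p)) (hU0 : ∀ p ∈ P, ∀ g, 0 ≤ U p g)
    (hUp : ∀ g, 0 < ∑ p ∈ P, U p g)
    (hRm : ∀ p ∈ P, Measurable (R p)) (hR0 : ∀ p ∈ P, ∀ g, 0 ≤ R p g)
    (hRi : ∀ p ∈ P, Integrable (R p) (lw ι μ))
    (hQm : ∀ z ∈ Zs, ∀ p ∈ I z, Measurable (Q z p))
    (hQ0 : ∀ z ∈ Zs, ∀ p ∈ I z, ∀ g, 0 ≤ Q z p g)
    (hQi : ∀ z ∈ Zs, ∀ p ∈ I z, Integrable (Q z p) (lw ι μ))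
    (O : Set ι) (hUO : ∀ p ∈ P, DependsOn (U p) O) (hRO : ∀ p ∈ P, DependsOn (R p) Oᶜ)
    (hQO : ∀ z ∈ Zs, ∀ p ∈ I z, DependsOn (Q z p) Oᶜ)
    (D : κ → Finset ι) (hDO : ∀ z ∈ Zs, (D z : Set ι) ⊆ Oᶜ)
    (hQD : ∀ z ∈ Zs, ∀ p ∈ I z, DependsOn (Q z p) (D z : Set ι)ᶜ)
    {G : κ → (ι → ℝ) → ℝ} (hG : ∀ z ∈ Zs, Measurable (G z)) (hG0 : ∀ z ∈ Zs, ∀ g, 0 ≤ G z g)
    (hG1 : ∀ z ∈ Zs, ∀ g, G z g ≤ 1) (hGm : ∀ z ∈ Zs, MonoOn (D z : Set ι) (G z))
    (hGd : ∀ z ∈ Zs, DependsOn (G z) (D z : Set ι)) (hGp : ∀ z ∈ Zs, 0 < ∫ g, G z g ∂(lw ι μ))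
    (hLm : Measurable L) (hLmo : ∀ z ∈ Zs, MonoOn (D z : Set ι) L) (hLi : Integrable L (lw ι μ))
    (hΛi : Integrable (fun g => Real.log (∑ p ∈ P, U p g)) (lw ι μ))
    {Y a x : ℝ}
    (h1 : ∀ g, ∑ p ∈ P, U p g * Real.exp (-R p g) ≤ Real.exp (L g))
    (h2 : ∀ z ∈ Zs, ∀ g, G z g ≠ 0 →
      ∑ p ∈ I z, U p g * Real.exp (Y - Q z p g) ≤ Real.exp (L g))
    (ha : ∀ z ∈ Zs, ∀ p ∈ I z, ∫ g, Q z p g ∂(lw ι μ) ≤ a)
    (hx : ∀ p ∈ P, ∫ g, R p g ∂(lw ι μ) ≤ x)
    {Λ ν : (ι → ℝ) → ℝ} (hΛ : ∀ g, Λ g = Real.log (∑ p ∈ P, U p g))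
    (hν : ∀ g, ν g = (∑ z ∈ Zs, ∑ p ∈ I z, U p g) / ∑ p ∈ P, U p g) :
    ∫ g, ν g * (Φ (Λ g + Y) - Φ (Λ g)) ∂(lw ι μ) + ∫ g, Φ (Λ g) ∂(lw ι μ) -
        ∫ g, Φ (L g) ∂(lw ι μ) - Real.log Zs.card - 1 - a * ∫ g, ν g ∂(lw ι μ) -
        x * (1 - ∫ g, ν g ∂(lw ι μ)) ≤
      ∑ z ∈ Zs, ((∫ g, G z g * Φ (L g) ∂(lw ι μ)) / (∫ g, G z g ∂(lw ι μ)) -
        ∫ g, Φ (L g) ∂(lw ι μ)) := by
  classical
  obtain ⟨S, hS⟩ : ∃ S : (ι → ℝ) → ℝ, ∀ g, S g = ∑ p ∈ P, U p g := ⟨_, fun _ => rfl⟩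
  obtain ⟨n, hn⟩ : ∃ n : π → (ι → ℝ) → ℝ, ∀ p g, n p g = U p g / S g := ⟨_, fun _ _ => rfl⟩
  obtain ⟨N, hN⟩ : ∃ N : κ → (ι → ℝ) → ℝ, ∀ z g, N z g = ∑ p ∈ I z, n p g := ⟨_, fun _ _ => rfl⟩
  obtain ⟨T, hT⟩ : ∃ T : (ι → ℝ) → ℝ, ∀ g, T g = Φ (L g) := ⟨_, fun _ => rfl⟩
  have hSp : ∀ g, 0 < S g := fun g => by
    rw [hS]
    exact hUp g
  have hSm : Measurable S := by
    have e : S = fun g => ∑ p ∈ P, U p g := funext hS
    rw [e]
    exact Finset.measurable_sum _ hUm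
  have hΛ' : ∀ g, Λ g = Real.log (S g) := fun g => by rw [hΛ, hS]
  have hΛm : Measurable Λ := by
    have e : Λ = fun g => Real.log (S g) := funext hΛ'
    rw [e]
    exact Real.measurable_log.comp hSm
  have hΛi' : Integrable Λ (lw ι μ) := by
    have e : Λ = fun g => Real.log (∑ p ∈ P, U p g) := funext hΛ
    rw [e]
    exact hΛi
  have hnm : ∀ p ∈ P, Measurable (n p) := fun p hp => by
    have e : n p = fun g => U p g / S g := funext (hn p)
    rw [e]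
    exact (hUm p hp).div hSm
  have hn0 : ∀ p ∈ P, ∀ g, 0 ≤ n p g := fun p hp g => by
    rw [hn]
    exact div_nonneg (hU0 p hp g) (hSp g).le
  have hns : ∀ g, ∑ p ∈ P, n p g = 1 := fun g => by
    simp only [hn]
    rw [← Finset.sum_div, ← hS]
    exact div_self (hSp g).ne'
  have hn1 : ∀ p ∈ P, ∀ g, n p g ≤ 1 := fun p hp g => by
    rw [← hns g]
    exact Finset.single_le_sum (f := fun p => n p g) (fun q hq => hn0 q hq g) hp
  have hSO : DependsOn S O := fun g g' h => by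
    rw [hS, hS]
    exact Finset.sum_congr rfl fun p hp => hUO p hp h
  have hnO : ∀ p ∈ P, DependsOn (n p) O := fun p hp g g' h => by
    rw [hn, hn, hUO p hp h, hSO h]
  have hΛO : DependsOn Λ O := fun g g' h => by rw [hΛ', hΛ', hSO h]
  have hN0 : ∀ z ∈ Zs, ∀ g, 0 ≤ N z g := fun z hz g => by
    rw [hN]
    exact Finset.sum_nonneg fun p hp => hn0 p (hI z hz hp) g
  have hNm : ∀ z ∈ Zs, Measurable (N z) := fun z hz => by
    have e : N z = fun g => ∑ p ∈ I z, n p g := funext (hN z)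
    rw [e]
    exact Finset.measurable_sum _ fun p hp => hnm p (hI z hz hp)
  have hNO : ∀ z ∈ Zs, DependsOn (N z) O := fun z hz g g' h => by
    rw [hN, hN]
    exact Finset.sum_congr rfl fun p hp => hnO p (hI z hz hp) h
  have hνN : ∀ g, ν g = ∑ z ∈ Zs, N z g := fun g => by
    rw [hν, ← hS, Finset.sum_div]
    refine Finset.sum_congr rfl fun z _ => ?_
    rw [hN, Finset.sum_div]
    exact Finset.sum_congr rfl fun p _ => (hn p g).symm
  have hν1 : ∀ g, ν g ≤ 1 := fun g => by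
    rw [hνN, ← hns g]
    have e : ∑ z ∈ Zs, N z g = ∑ p ∈ Zs.biUnion I, n p g := by
      rw [Finset.sum_biUnion]
      · exact Finset.sum_congr rfl fun z _ => hN z g
      · intro z hz z' hz' h
        exact hId z hz z' hz' h
    rw [e]
    refine Finset.sum_le_sum_of_subset_of_nonneg ?_ fun p hp _ => hn0 p hp g
    intro p hp
    obtain ⟨z, hz, hp⟩ := Finset.mem_biUnion.1 hp
    exact hI z hz hp
  have hν0 : ∀ g, 0 ≤ ν g := fun g => by
    rw [hνN]
    exact Finset.sum_nonneg fun z hz => hN0 z hz g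
  have hN1 : ∀ z ∈ Zs, ∀ g, N z g ≤ 1 := fun z hz g => by
    refine le_trans ?_ (hν1 g)
    rw [hνN]
    exact Finset.single_le_sum (f := fun z => N z g) (fun z hz => hN0 z hz g) hz
  have hνm : Measurable ν := by
    have e : ν = fun g => ∑ z ∈ Zs, N z g := funext hνN
    rw [e]
    exact Finset.measurable_sum _ hNm
  have hTe : T = fun g => Φ (L g) := funext hT
  have hTm : Measurable T := by
    rw [hTe]
    exact hΦ.mono.measurable.comp hLm
  have hTi : Integrable T (lw ι μ) := by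
    rw [hTe]
    exact hΦ.integrable hLm hLi
  have hΦΛm : Measurable fun g => Φ (Λ g) := hΦ.mono.measurable.comp hΛm
  have hΦΛi : Integrable (fun g => Φ (Λ g)) (lw ι μ) := hΦ.integrable hΛm hΛi'
  have hΦYm : Measurable fun g => Φ (Λ g + Y) := hΦ.mono.measurable.comp (hΛm.add_const Y)
  have hΦYi : Integrable (fun g => Φ (Λ g + Y)) (lw ι μ) :=
    hΦ.integrable (hΛm.add_const Y) (hΛi'.add (integrable_const Y))
  -- lower bounds for T
  have hTR : ∀ g, Φ (Λ g) ≤ T g + ∑ p ∈ P, n p g * R p g := by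
    intro g
    have h3 := jens P (a := fun p => U p g) (x := fun p => -R p g) (fun p hp => hU0 p hp g)
      (hUp g)
    have hpos : 0 < ∑ p ∈ P, U p g * Real.exp (-R p g) := by
      obtain ⟨p, hp, hpp⟩ : ∃ p ∈ P, 0 < U p g := by
        by_contra hcon
        push Not at hcon
        exact absurd (Finset.sum_nonpos hcon) (not_le.2 (hUp g))
      exact lt_of_lt_of_le (mul_pos hpp (Real.exp_pos _)) (Finset.single_le_sum
        (f := fun p => U p g * Real.exp (-R p g))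
        (fun q hq => mul_nonneg (hU0 q hq g) (Real.exp_pos _).le) hp)
    have h4 := Real.log_le_log hpos (h1 g)
    rw [Real.log_exp] at h4
    rw [← hΛ] at h3
    have h5 : (∑ p ∈ P, U p g * -R p g) / ∑ p ∈ P, U p g = -∑ p ∈ P, n p g * R p g := by
      rw [← hS, Finset.sum_div, ← Finset.sum_neg_distrib]
      refine Finset.sum_congr rfl fun p _ => ?_
      rw [hn]
      ring
    rw [h5] at h3
    rw [hT]
    exact hΦ.sub_le (Finset.sum_nonneg fun p hp => mul_nonneg (hn0 p hp g) (hR0 p hp g))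
      (by linarith)
  obtain ⟨m, hm⟩ : ∃ m : κ → (ι → ℝ) → ℝ, ∀ z g, m z g = N z g * Φ (Λ g + Y) +
    N z g * Real.log (N z g) - ∑ p ∈ I z, n p g * Q z p g := ⟨_, fun _ _ => rfl⟩
  have hme : ∀ z, m z = fun g => N z g * Φ (Λ g + Y) +
    N z g * Real.log (N z g) - ∑ p ∈ I z, n p g * Q z p g := fun z => funext (hm z)
  have hle : ∀ z ∈ Zs, ∀ g, G z g * m z g ≤ G z g * (N z g * T g) := by
    intro z hz g
    by_cases hGz : G z g = 0
    · rw [hGz, zero_mul, zero_mul]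
    refine mul_le_mul_of_nonneg_left ?_ (hG0 z hz g)
    have hQs : 0 ≤ ∑ p ∈ I z, n p g * Q z p g :=
      Finset.sum_nonneg fun p hp => mul_nonneg (hn0 p (hI z hz hp) g) (hQ0 z hz p hp g)
    rcases (hN0 z hz g).eq_or_lt with hNz | hNz
    · rw [hm, ← hNz]
      linarith
    have hNz1 := hN1 z hz g
    have hnU : ∀ p, U p g = S g * n p g := fun p => by
      rw [hn]
      field_simp [(hSp g).ne']
    have h3 := jens (I z) (a := fun p => n p g) (x := fun p => Y - Q z p g)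
      (fun p hp => hn0 p (hI z hz hp) g) (by rw [← hN]; exact hNz)
    have h4 := h2 z hz g hGz
    have h5 : ∑ p ∈ I z, U p g * Real.exp (Y - Q z p g) =
        S g * ∑ p ∈ I z, n p g * Real.exp (Y - Q z p g) := by
      rw [Finset.mul_sum]
      refine Finset.sum_congr rfl fun p _ => ?_
      rw [hnU]
      ring
    have hpos : 0 < ∑ p ∈ I z, n p g * Real.exp (Y - Q z p g) := by
      obtain ⟨p, hp, hpp⟩ : ∃ p ∈ I z, 0 < n p g := by
        by_contra hcon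
        push Not at hcon
        have := Finset.sum_nonpos hcon
        rw [← hN] at this
        linarith
      exact lt_of_lt_of_le (mul_pos hpp (Real.exp_pos _)) (Finset.single_le_sum
        (f := fun p => n p g * Real.exp (Y - Q z p g))
        (fun q hq => mul_nonneg (hn0 q (hI z hz hq) g) (Real.exp_pos _).le) hp)
    rw [h5] at h4
    have h6 := Real.log_le_log (mul_pos (hSp g) hpos) h4
    rw [Real.log_mul (hSp g).ne' hpos.ne', Real.log_exp, ← hΛ'] at h6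
    rw [← hN] at h3
    have h7 : ∑ p ∈ I z, n p g * (Y - Q z p g) = N z g * Y - ∑ p ∈ I z, n p g * Q z p g := by
      rw [hN, Finset.sum_mul, ← Finset.sum_sub_distrib]
      exact Finset.sum_congr rfl fun p _ => by ring
    rw [h7, sub_div, mul_div_cancel_left₀ _ hNz.ne'] at h3
    obtain ⟨δ, hδ⟩ : ∃ δ, δ = -Real.log (N z g) + (∑ p ∈ I z, n p g * Q z p g) / N z g :=
      ⟨_, rfl⟩
    have hδ0 : 0 ≤ δ := by
      have h8 := Real.log_nonpos hNz.le hNz1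
      have h9 : 0 ≤ (∑ p ∈ I z, n p g * Q z p g) / N z g := div_nonneg hQs hNz.le
      rw [hδ]
      linarith
    have h8 : Φ (Λ g + Y) ≤ T g + δ := by
      rw [hT]
      exact hΦ.sub_le hδ0 (by rw [hδ]; linarith)
    have h9 := mul_le_mul_of_nonneg_left h8 hNz.le
    have h10 : N z g * δ = -(N z g * Real.log (N z g)) + ∑ p ∈ I z, n p g * Q z p g := by
      rw [hδ]
      field_simp
    rw [hm]
    nlinarith [h9, h10]
  have hnQi : ∀ z ∈ Zs, ∀ p ∈ I z, Integrable (fun g => n p g * Q z p g) (lw ι μ) :=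
    fun z hz p hp => bdmul (hnm p (hI z hz hp)) (hn0 p (hI z hz hp)) (hn1 p (hI z hz hp))
      (hQm z hz p hp) (hQi z hz p hp)
  have hnQm : ∀ z ∈ Zs, ∀ p ∈ I z, Measurable (fun g => n p g * Q z p g) :=
    fun z hz p hp => (hnm p (hI z hz hp)).mul (hQm z hz p hp)
  have hNli : ∀ z ∈ Zs, Integrable (fun g => N z g * Real.log (N z g)) (lw ι μ) := by
    intro z hz
    refine bint ((hNm z hz).mul (Real.measurable_log.comp (hNm z hz))) (a := 1) fun g => ?_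
    rcases (hN0 z hz g).eq_or_lt with h | h
    · rw [← h]
      simp
    · have := Real.abs_log_mul_self_lt (N z g) h (hN1 z hz g)
      rw [mul_comm]
      exact this.le
  have hmm : ∀ z ∈ Zs, Measurable (m z) := by
    intro z hz
    rw [hme]
    exact (((hNm z hz).mul hΦYm).add ((hNm z hz).mul (Real.measurable_log.comp (hNm z hz)))).sub
      (Finset.measurable_sum _ (hnQm z hz))
  have hmi : ∀ z ∈ Zs, Integrable (m z) (lw ι μ) := by
    intro z hz
    rw [hme]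
    exact ((bdmul (hNm z hz) (hN0 z hz) (hN1 z hz) hΦYm hΦYi).add (hNli z hz)).sub
      (integrable_finsetSum _ (hnQi z hz))
  have hOD : ∀ z ∈ Zs, O ⊆ (D z : Set ι)ᶜ := fun z hz p hp hp' => hDO z hz hp' hp
  have hmD : ∀ z ∈ Zs, DependsOn (m z) (D z : Set ι)ᶜ := by
    intro z hz g g' h
    have hO : ∀ p ∈ O, g p = g' p := fun p hp => h p (hOD z hz hp)
    rw [hm, hm, hNO z hz hO, hΛO hO]
    congr 1
    exact Finset.sum_congr rfl fun p hp => by
      rw [hnO p (hI z hz hp) hO, hQD z hz p hp h]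
  have hND : ∀ z ∈ Zs, DependsOn (N z) (D z : Set ι)ᶜ := fun z hz g g' h =>
    hNO z hz fun p hp => h p (hOD z hz hp)
  have hstep : ∀ z ∈ Zs, ∫ g, m z g ∂(lw ι μ) - ∫ g, N z g * T g ∂(lw ι μ) ≤
      (∫ g, G z g * T g ∂(lw ι μ)) / (∫ g, G z g ∂(lw ι μ)) - ∫ g, T g ∂(lw ι μ) := by
    intro z hz
    have hb := block (D z) (hG z hz) (hG0 z hz) (hG1 z hz) (hGm z hz) (hGd z hz) (hNm z hz)
      (hN0 z hz) (hN1 z hz) (hND z hz) (hmm z hz) (hmi z hz) (hmD z hz) hTm hTi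
      (fun g g' h3 h4 => by
        rw [hT, hT]
        exact hΦ.mono (hLmo z hz g g' h3 h4)) (hle z hz)
    have hp := hGp z hz
    rw [le_sub_iff_add_le, le_div_iff₀ hp]
    nlinarith [hb]
  have hNTi : ∀ z ∈ Zs, Integrable (fun g => N z g * T g) (lw ι μ) := fun z hz =>
    bdmul (hNm z hz) (hN0 z hz) (hN1 z hz) hTm hTi
  -- pointwise
  obtain ⟨r, hr⟩ : ∃ r : (ι → ℝ) → ℝ, ∀ g, r g = ∑ p ∈ P, n p g * R p g := ⟨_, fun _ => rfl⟩
  obtain ⟨q, hq⟩ : ∃ q : (ι → ℝ) → ℝ, ∀ g, q g = ∑ z ∈ Zs, ∑ p ∈ I z, n p g * Q z p g :=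
    ⟨_, fun _ => rfl⟩
  obtain ⟨c, hc⟩ : ∃ c : ℝ, c = Real.log Zs.card + 1 := ⟨_, rfl⟩
  have hpt : ∀ g, ν g * (Φ (Λ g + Y) - Φ (Λ g)) + Φ (Λ g) - T g - c - q g - (1 - ν g) * r g ≤
      ∑ z ∈ Zs, (m z g - N z g * T g) := by
    intro g
    have e1 : ∑ z ∈ Zs, (m z g - N z g * T g) =
        ν g * Φ (Λ g + Y) + ∑ z ∈ Zs, N z g * Real.log (N z g) - q g - ν g * T g := by
      rw [hq, hνN, Finset.sum_mul, Finset.sum_mul, ← Finset.sum_add_distrib,
        ← Finset.sum_sub_distrib, ← Finset.sum_sub_distrib]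
      exact Finset.sum_congr rfl fun z _ => by rw [hm]
    have h3 := ent Zs hZs (n := fun z => N z g) (fun z hz => hN0 z hz g)
      (by rw [← hνN]; exact hν1 g)
    rw [← hc] at h3
    have h4 := hTR g
    rw [← hr] at h4
    have h5 : 0 ≤ (1 - ν g) * (T g - Φ (Λ g) + r g) :=
      mul_nonneg (sub_nonneg.2 (hν1 g)) (by linarith)
    rw [e1]
    nlinarith [h3, h5]
  -- integration
  have hri : Integrable r (lw ι μ) := by
    have e : r = fun g => ∑ p ∈ P, n p g * R p g := funext hr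
    rw [e]
    exact integrable_finsetSum _ fun p hp => bdmul (hnm p hp) (hn0 p hp) (hn1 p hp) (hRm p hp)
      (hRi p hp)
  have hrm : Measurable r := by
    have e : r = fun g => ∑ p ∈ P, n p g * R p g := funext hr
    rw [e]
    exact Finset.measurable_sum _ fun p hp => (hnm p hp).mul (hRm p hp)
  have hqi : Integrable q (lw ι μ) := by
    have e : q = fun g => ∑ z ∈ Zs, ∑ p ∈ I z, n p g * Q z p g := funext hq
    rw [e]
    exact integrable_finsetSum _ fun z hz => integrable_finsetSum _ (hnQi z hz)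
  have hνi : Integrable ν (lw ι μ) := bint hνm (a := 1) fun g => by
    rw [abs_of_nonneg (hν0 g)]
    exact hν1 g
  have hωm : Measurable fun g => 1 - ν g := measurable_const.sub hνm
  have hω0 : ∀ g, 0 ≤ 1 - ν g := fun g => sub_nonneg.2 (hν1 g)
  have hω1 : ∀ g, 1 - ν g ≤ 1 := fun g => by linarith [hν0 g]
  have hνΦi : Integrable (fun g => ν g * (Φ (Λ g + Y) - Φ (Λ g))) (lw ι μ) :=
    bdmul hνm hν0 hν1 (hΦYm.sub hΦΛm) (hΦYi.sub hΦΛi)
  have hωri : Integrable (fun g => (1 - ν g) * r g) (lw ι μ) := bdmul hωm hω0 hω1 hrm hri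
  have hIq : ∫ g, q g ∂(lw ι μ) ≤ a * ∫ g, ν g ∂(lw ι μ) := by
    have e : q = fun g => ∑ z ∈ Zs, ∑ p ∈ I z, n p g * Q z p g := funext hq
    rw [e, integral_finsetSum _ fun z hz => integrable_finsetSum _ (hnQi z hz)]
    have e2 : ∫ g, ν g ∂(lw ι μ) = ∑ z ∈ Zs, ∑ p ∈ I z, ∫ g, n p g ∂(lw ι μ) := by
      have e3 : ν = fun g => ∑ z ∈ Zs, ∑ p ∈ I z, n p g := by
        funext g
        rw [hνN]
        exact Finset.sum_congr rfl fun z _ => hN z g
      have hnI : ∀ z ∈ Zs, ∀ p ∈ I z, Integrable (fun g => n p g) (lw ι μ) := fun z hz p hp =>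
        bint (hnm p (hI z hz hp)) (a := 1) fun g => by
          rw [abs_of_nonneg (hn0 p (hI z hz hp) g)]
          exact hn1 p (hI z hz hp) g
      rw [e3, integral_finsetSum _ fun z hz => integrable_finsetSum _ (hnI z hz)]
      exact Finset.sum_congr rfl fun z hz => integral_finsetSum _ (hnI z hz)
    rw [e2, Finset.mul_sum]
    refine Finset.sum_le_sum fun z hz => ?_
    rw [integral_finsetSum _ (hnQi z hz), Finset.mul_sum]
    refine Finset.sum_le_sum fun p hp => ?_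
    rw [integral_mul_indep O (hnm p (hI z hz hp)) (hQm z hz p hp) (hnO p (hI z hz hp))
      (hQO z hz p hp), mul_comm a]
    exact mul_le_mul_of_nonneg_left (ha z hz p hp)
      (integral_nonneg fun g => hn0 p (hI z hz hp) g)
  have hIr : ∫ g, (1 - ν g) * r g ∂(lw ι μ) ≤ x * (1 - ∫ g, ν g ∂(lw ι μ)) := by
    have hfm : ∀ p ∈ P, Measurable (fun g => (1 - ν g) * n p g) := fun p hp =>
      hωm.mul (hnm p hp)
    have hf0 : ∀ p ∈ P, ∀ g, 0 ≤ (1 - ν g) * n p g := fun p hp g =>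
      mul_nonneg (hω0 g) (hn0 p hp g)
    have hf1 : ∀ p ∈ P, ∀ g, (1 - ν g) * n p g ≤ 1 := fun p hp g =>
      mul_le_one₀ (hω1 g) (hn0 p hp g) (hn1 p hp g)
    have e1 : (fun g => (1 - ν g) * r g) =
        fun g => ∑ p ∈ P, ((1 - ν g) * n p g) * R p g := by
      funext g
      rw [hr, Finset.mul_sum]
      exact Finset.sum_congr rfl fun p _ => by ring
    rw [e1, integral_finsetSum _ fun p hp => bdmul (hfm p hp) (hf0 p hp) (hf1 p hp) (hRm p hp)
      (hRi p hp)]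
    have e2 : 1 - ∫ g, ν g ∂(lw ι μ) = ∑ p ∈ P, ∫ g, (1 - ν g) * n p g ∂(lw ι μ) := by
      rw [← integral_finsetSum _ fun p hp => bint (hfm p hp) (a := 1) fun g => by
        rw [abs_of_nonneg (hf0 p hp g)]
        exact hf1 p hp g]
      have e3 : ∀ g, ∑ p ∈ P, (1 - ν g) * n p g = 1 - ν g := fun g => by
        rw [← Finset.mul_sum, hns, mul_one]
      simp only [e3]
      rw [integral_sub (integrable_const _) hνi, integral_const, probReal_univ, one_smul]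
    rw [e2, Finset.mul_sum]
    refine Finset.sum_le_sum fun p hp => ?_
    have hd : DependsOn (fun g => (1 - ν g) * n p g) O := fun g g' h => by
      have e4 : ν g = ν g' := by
        rw [hνN, hνN]
        exact Finset.sum_congr rfl fun z hz => hNO z hz h
      show (1 - ν g) * n p g = (1 - ν g') * n p g'
      rw [e4, hnO p hp h]
    rw [integral_mul_indep O (hfm p hp) (hRm p hp) hd (hRO p hp), mul_comm x]
    exact mul_le_mul_of_nonneg_left (hx p hp) (integral_nonneg fun g => hf0 p hp g)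
  have hI3 := integral_mono (μ := lw ι μ)
    (((((hνΦi.add hΦΛi).sub hTi).sub (integrable_const c)).sub hqi).sub hωri)
    (integrable_finsetSum Zs fun z hz => (hmi z hz).sub (hNTi z hz)) hpt
  have hI4 : ∫ g, (ν g * (Φ (Λ g + Y) - Φ (Λ g)) + Φ (Λ g) - T g - c - q g -
      (1 - ν g) * r g) ∂(lw ι μ) = ∫ g, ν g * (Φ (Λ g + Y) - Φ (Λ g)) ∂(lw ι μ) +
      ∫ g, Φ (Λ g) ∂(lw ι μ) - ∫ g, T g ∂(lw ι μ) - c - ∫ g, q g ∂(lw ι μ) -
      ∫ g, (1 - ν g) * r g ∂(lw ι μ) := by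
    have i1 := hνΦi.add hΦΛi
    have i2 := i1.sub hTi
    have i3 := i2.sub (integrable_const (μ := lw ι μ) c)
    have i4 := i3.sub hqi
    have j1 : ∫ g, (ν g * (Φ (Λ g + Y) - Φ (Λ g)) + Φ (Λ g)) ∂(lw ι μ) =
        ∫ g, ν g * (Φ (Λ g + Y) - Φ (Λ g)) ∂(lw ι μ) + ∫ g, Φ (Λ g) ∂(lw ι μ) :=
      integral_add hνΦi hΦΛi
    have j2 : ∫ g, (ν g * (Φ (Λ g + Y) - Φ (Λ g)) + Φ (Λ g) - T g) ∂(lw ι μ) =
        ∫ g, (ν g * (Φ (Λ g + Y) - Φ (Λ g)) + Φ (Λ g)) ∂(lw ι μ) - ∫ g, T g ∂(lw ι μ) :=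
      integral_sub i1 hTi
    have j3 : ∫ g, (ν g * (Φ (Λ g + Y) - Φ (Λ g)) + Φ (Λ g) - T g - c) ∂(lw ι μ) =
        ∫ g, (ν g * (Φ (Λ g + Y) - Φ (Λ g)) + Φ (Λ g) - T g) ∂(lw ι μ) - c := by
      have := integral_sub i2 (integrable_const (μ := lw ι μ) c)
      rw [integral_const, probReal_univ, one_smul] at this
      exact this
    have j4 : ∫ g, (ν g * (Φ (Λ g + Y) - Φ (Λ g)) + Φ (Λ g) - T g - c - q g) ∂(lw ι μ) =
        ∫ g, (ν g * (Φ (Λ g + Y) - Φ (Λ g)) + Φ (Λ g) - T g - c) ∂(lw ι μ) -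
          ∫ g, q g ∂(lw ι μ) := integral_sub i3 hqi
    have j5 : ∫ g, (ν g * (Φ (Λ g + Y) - Φ (Λ g)) + Φ (Λ g) - T g - c - q g -
        (1 - ν g) * r g) ∂(lw ι μ) =
        ∫ g, (ν g * (Φ (Λ g + Y) - Φ (Λ g)) + Φ (Λ g) - T g - c - q g) ∂(lw ι μ) -
          ∫ g, (1 - ν g) * r g ∂(lw ι μ) := integral_sub i4 hωri
    rw [j5, j4, j3, j2, j1]
  have hI5 : ∫ g, ∑ z ∈ Zs, (m z g - N z g * T g) ∂(lw ι μ) =
      ∑ z ∈ Zs, (∫ g, m z g ∂(lw ι μ) - ∫ g, N z g * T g ∂(lw ι μ)) := by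
    have hmNi : ∀ z ∈ Zs, Integrable (fun g => m z g - N z g * T g) (lw ι μ) := fun z hz =>
      (hmi z hz).sub (hNTi z hz)
    rw [integral_finsetSum _ hmNi]
    exact Finset.sum_congr rfl fun z hz => integral_sub (hmi z hz) (hNTi z hz)
  have hI6 := Finset.sum_le_sum hstep
  have hI7 : ∫ g, (ν g * (Φ (Λ g + Y) - Φ (Λ g)) + Φ (Λ g) - T g - c - q g -
      (1 - ν g) * r g) ∂(lw ι μ) ≤ ∫ g, ∑ z ∈ Zs, (m z g - N z g * T g) ∂(lw ι μ) := hI3
  rw [hI4, hI5] at hI7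
  have hTe' : (fun g => Φ (L g)) = T := hTe.symm
  simp only [← hT]
  rw [hc] at hI7
  linarith

end

end Pool.Agent.W_7d29a1_h48
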