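import Pool.Agent.W_7d29a1_h48.Ins

/-!
# The cores of the blocks (helper48)
-/

namespace Pool.Agent.W_7d29a1_h48

open MeasureTheory ProbabilityTheory Finset Pool.Agent.W_7d29a1_f21 Pool.Agent.W_7d29a1_F

noncomputable section

/-- The tube of half width `b` around the line of slope `1 / 2` through `a`. -/
def tub (a : Pt) (b : ℝ) : Set Pt :=
  {p | |((p.2 - a.2 : ℤ) : ℝ) - ((p.1 - a.1 : ℤ) : ℝ) / 2| ≤ b}

variable {μ : Measure ℝ}

/-- The core event of the block which starts at `a`: the luck inside of the tube is at least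
`Y`. -/
def Ev (μ : Measure ℝ) (b Y : ℝ) (M : ℕ) (a : Pt) (η : Env) : Prop :=
  Y ≤ Real.log (WR μ 0 (tub a b) η a M (M / 2))

open Classical in
/-- The finite set of sites of the block. -/
def Db (b : ℝ) (M : ℕ) (a : Pt) : Finset Pt :=
  (Finset.Icc (a.1 + 1) (a.1 + M) ×ˢ Finset.Icc (a.2 - M) (a.2 + M)).filter fun p => p ∈ tub a b

lemma mem_Db {b : ℝ} {M : ℕ} {a p : Pt} : p ∈ Db b M a ↔
    (a.1 < p.1 ∧ p.1 ≤ a.1 + M ∧ a.2 - M ≤ p.2 ∧ p.2 ≤ a.2 + M) ∧ p ∈ tub a b := by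
  classical
  unfold Db
  rw [Finset.mem_filter, Finset.mem_product, Finset.mem_Icc, Finset.mem_Icc]
  constructor
  · rintro ⟨⟨⟨h1, h2⟩, h3, h4⟩, h5⟩
    exact ⟨⟨by omega, h2, h3, h4⟩, h5⟩
  · rintro ⟨⟨h1, h2, h3, h4⟩, h5⟩
    exact ⟨⟨⟨by omega, h2⟩, h3, h4⟩, h5⟩

lemma Db_rows (b : ℝ) (M : ℕ) (a : Pt) : (Db b M a : Set Pt) ⊆ rows a.1 (a.1 + M) := by
  intro p hp
  have h := (mem_Db.1 hp).1
  exact ⟨h.1, h.2.1⟩

lemma WR_dep_Db (b : ℝ) (M : ℕ) (a : Pt) :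
    DependsOn (fun η : Env => WR μ 0 (tub a b) η a M (M / 2)) (Db b M a : Set Pt) := by
  intro η η' h
  refine WR_dep (μ := μ) (s := 0) (tub a b) a M (M / 2) fun p hp => h p ?_
  obtain ⟨⟨h1, h2, h3, h4, h5, h6⟩, h7⟩ := hp
  refine mem_Db.2 ⟨⟨h1, h2, by omega, by omega⟩, h7⟩

/-- The indicator of the core event. -/
def Gb (μ : Measure ℝ) (b Y : ℝ) (M : ℕ) (a : Pt) (η : Env) : ℝ := io (Ev μ b Y M a η)

lemma measSet_Ev (b Y : ℝ) (M : ℕ) (a : Pt) : MeasurableSet {η | Ev μ b Y M a η} :=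
  measurableSet_le measurable_const (Real.measurable_log.comp (measurable_WR _ _ _ _))

lemma Gb_meas (b Y : ℝ) (M : ℕ) (a : Pt) : Measurable (Gb μ b Y M a) :=
  measurable_io (measSet_Ev b Y M a)

lemma Gb_nonneg (b Y : ℝ) (M : ℕ) (a : Pt) (η : Env) : 0 ≤ Gb μ b Y M a η := io_nonneg _

lemma Gb_le_one (b Y : ℝ) (M : ℕ) (a : Pt) (η : Env) : Gb μ b Y M a η ≤ 1 := io_le_one _

lemma Gb_dep (b Y : ℝ) (M : ℕ) (a : Pt) :
    DependsOn (Gb μ b Y M a) (Db b M a : Set Pt) := by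
  intro η η' h
  have e := WR_dep_Db (μ := μ) b M a h
  have e2 : WR μ 0 (tub a b) η a M (M / 2) = WR μ 0 (tub a b) η' a M (M / 2) := e
  show io (Y ≤ Real.log (WR μ 0 (tub a b) η a M (M / 2))) =
    io (Y ≤ Real.log (WR μ 0 (tub a b) η' a M (M / 2)))
  rw [e2]

lemma Ev_pos {b Y : ℝ} (hY : 0 < Y) {M : ℕ} {a : Pt} {η : Env} (h : Ev μ b Y M a η) :
    0 < WR μ 0 (tub a b) η a M (M / 2) := by
  rcases (WR_nonneg (μ := μ) (s := 0) (tub a b) η a M (M / 2)).eq_or_lt with h0 | h0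
  · unfold Ev at h
    rw [← h0, Real.log_zero] at h
    linarith
  · exact h0

lemma Gb_mono {b Y : ℝ} (hY : 0 < Y) (M : ℕ) (a : Pt) : Monotone (Gb μ b Y M a) := by
  intro η η' h
  by_cases h1 : Ev μ b Y M a η
  · have h2 : Ev μ b Y M a η' := by
      refine le_trans h1 (Real.log_le_log (Ev_pos hY h1) (WR_mono_env _ h _ _ _))
    show io _ ≤ io _
    rw [io_of h1, io_of h2]
  · show io _ ≤ io _
    rw [io_not h1]
    exact io_nonneg _

/-- On the event the core displacement has luck at least `Y`. -/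
lemma Gb_luck {b Y : ℝ} (hY : 0 < Y) {M : ℕ} {a : Pt} {η : Env} (h : Gb μ b Y M a η ≠ 0) :
    Y ≤ -X μ 0 η a M (M / 2) := by
  have h1 : Ev μ b Y M a η := by
    by_contra hc
    exact h (io_not hc)
  unfold X
  rw [neg_neg]
  exact le_trans h1 (Real.log_le_log (Ev_pos hY h1) (WR_le_W _ _ _ _ _))

variable [IsProbabilityMeasure μ]

lemma tub_sh (a : Pt) (b : ℝ) : {p | p + a ∈ tub a b} = tub 0 b := by
  ext p
  simp only [tub, Set.mem_ofPred_eq, Prod.fst_add, Prod.snd_add, Prod.fst_zero, Prod.snd_zero,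
    add_sub_cancel_right, sub_zero]

/-- All the blocks have the same probability. -/
lemma Gb_int (b Y : ℝ) (M : ℕ) (a : Pt) :
    ∫ η, Gb μ b Y M a η ∂(law μ) = (law μ).real {η | Ev μ b Y M 0 η} := by
  have h1 := mp_integral (mp_sh (μ := μ) a) (F := Gb μ b Y M 0)
    (Gb_meas b Y M 0).aestronglyMeasurable
  have h2 : ∀ η, Gb μ b Y M 0 (sh a η) = Gb μ b Y M a η := by
    intro η
    have e := WR_sh (μ := μ) (s := 0) (tub a b) η 0 a M (M / 2)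
    rw [tub_sh, zero_add] at e
    show io (Y ≤ Real.log (WR μ 0 (tub 0 b) (sh a η) 0 M (M / 2))) =
      io (Y ≤ Real.log (WR μ 0 (tub a b) η a M (M / 2)))
    rw [e]
  simp only [h2] at h1
  rw [h1]
  have h3 : ∀ η, Gb μ b Y M 0 η = Set.indicator {η | Ev μ b Y M 0 η} (fun _ => (1 : ℝ)) η := by
    intro η
    by_cases h : Ev μ b Y M 0 η
    · rw [Set.indicator_of_mem (show η ∈ {η | Ev μ b Y M 0 η} from h)]
      exact io_of h
    · rw [Set.indicator_of_notMem (show η ∉ {η | Ev μ b Y M 0 η} from h)]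
      exact io_not h
  simp only [h3]
  rw [integral_indicator (measSet_Ev b Y M 0)]
  simp

/-- Blocks with disjoint sets of sites are independent. -/
lemma Gb_indep {b Y : ℝ} {M : ℕ} {a a' : Pt}
    (h : Disjoint (Db b M a : Set Pt) (Db b M a' : Set Pt)) :
    ∫ η, Gb μ b Y M a η * Gb μ b Y M a' η ∂(law μ) =
      (∫ η, Gb μ b Y M a η ∂(law μ)) * ∫ η, Gb μ b Y M a' η ∂(law μ) :=
  integral_mul_indep (μ := μ) (Db b M a : Set Pt) (Gb_meas b Y M a) (Gb_meas b Y M a')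
    (Gb_dep b Y M a) fun η η' hh => Gb_dep b Y M a' fun p hp => hh p fun hp' =>
      Set.disjoint_left.1 h hp' hp

/-- Blocks in different slabs, or far from each other, are disjoint. -/
lemma Db_disj_rows {b : ℝ} {M : ℕ} {a a' : Pt} (h : a.1 + M ≤ a'.1) :
    Disjoint (Db b M a : Set Pt) (Db b M a' : Set Pt) :=
  (rows_disj h).mono (Db_rows b M a) (Db_rows b M a')

lemma Db_disj_cols {b : ℝ} {M : ℕ} {a a' : Pt} (h1 : a.1 = a'.1)
    (h2 : 2 * b < |((a.2 - a'.2 : ℤ) : ℝ)|) :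
    Disjoint (Db b M a : Set Pt) (Db b M a' : Set Pt) := by
  rw [Set.disjoint_left]
  intro p hp hp'
  have h3 : |((p.2 - a.2 : ℤ) : ℝ) - ((p.1 - a.1 : ℤ) : ℝ) / 2| ≤ b := (mem_Db.1 hp).2
  have h4 : |((p.2 - a'.2 : ℤ) : ℝ) - ((p.1 - a'.1 : ℤ) : ℝ) / 2| ≤ b := (mem_Db.1 hp').2
  rw [h1] at h3
  have h5 : ((a.2 - a'.2 : ℤ) : ℝ) =
      (((p.2 - a'.2 : ℤ) : ℝ) - ((p.1 - a'.1 : ℤ) : ℝ) / 2) -
        (((p.2 - a.2 : ℤ) : ℝ) - ((p.1 - a'.1 : ℤ) : ℝ) / 2) := by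
    push_cast
    ring
  rw [h5] at h2
  have h6 := abs_sub (((p.2 - a'.2 : ℤ) : ℝ) - ((p.1 - a'.1 : ℤ) : ℝ) / 2)
    (((p.2 - a.2 : ℤ) : ℝ) - ((p.1 - a'.1 : ℤ) : ℝ) / 2)
  linarith

end

end Pool.Agent.W_7d29a1_h48
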