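import Pool.Agent.W_7d29a1_h48.HBb
import Pool.Agent.W_7d29a1_h21g.FrP1
import Pool.Agent.W_7d29a1_h71g.ConfPin

/-!
# Section B: the theorem, from the frame only (helper48)
-/

namespace Pool.Agent.W_7d29a1_h48

open MeasureTheory ProbabilityTheory Filter Topology Pool.Agent.W_7d29a1_F Pool.Agent.W_7d29a1_h4g
open Pool.Agent.W_7d29a1_h47 (EM Nondeg)
open Pool.Agent.W_7d29a1_G

theorem inH_of_FIn {μ : Measure ℝ} (h : FIn μ) : InH μ := by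
  obtain ⟨c₀, hc₀, h⟩ := h
  obtain ⟨C, n₀, h⟩ := h 1
  refine ⟨c₀, C, n₀, hc₀, fun n hn u hu0 hu1 hu => h n hn n u (by omega) hu0 hu1 ?_⟩
  rw [mul_assoc]
  linarith

variable {μ : Measure ℝ} [IsProbabilityMeasure μ]

theorem coreH_of (hμ : EM μ) (hnd : Nondeg μ) (hI : FIn μ) (hT : FTilt μ) : CoreH μ := by
  intro a₁
  obtain ⟨T, h⟩ := Pool.Agent.W_7d29a1_h21g.core_luck1 (μ := μ) hμ hnd hI hT a₁
  refine ⟨T, fun K => ?_⟩
  obtain ⟨p, R, x₀, hp, -, h⟩ := h K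
  refine ⟨p, R, x₀, hp, fun y hy hS => ?_⟩
  obtain ⟨M, -, h1, h2, h3⟩ := h y hy hS
  exact ⟨M, h1, h2.le, h3⟩

/-- **Section B.** -/
theorem hb (hμ : EM μ) (hnd : Nondeg μ) (hI : FIn μ) (hT : FTilt μ) : HB μ 3 :=
  hb_of hμ hnd (Pool.Agent.W_7d29a1_h18.EE_tendsto hμ hnd) (Pool.Agent.W_7d29a1_h71g.confH hμ hnd)
    (inH_of_FIn hI)
    (coreH_of hμ hnd hI hT)

end Pool.Agent.W_7d29a1_h48
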