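import Pool.Agent.W_7d29a1_F.LuckA
import Pool.Agent.W_7d29a1_h48.InsA

/-!
# The slab insertion lemma for the polymer (helper48)
-/

namespace Pool.Agent.W_7d29a1_h48

open MeasureTheory ProbabilityTheory Finset Pool.Agent.W_7d29a1_f21 Pool.Agent.W_7d29a1_F

noncomputable section

variable {μ : Measure ℝ} {s : ℝ}

/-- The partition function is nondecreasing in the environment. -/
lemma Zr_mono_env (R : Set Pt) {η η' : Env} (h : ∀ p, η p ≤ η' p) (a : Pt) (n : ℕ) (y : ℤ) :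
    Zr R η a n y ≤ Zr R η' a n y := by
  induction n generalizing y with
  | zero => exact le_rfl
  | succ n ih =>
    show R.indicator (fun p => Real.exp (η p)) (a.1 + (n + 1), a.2 + y) *
        (Zr R η a n y + Zr R η a n (y - 1)) ≤
      R.indicator (fun p => Real.exp (η' p)) (a.1 + (n + 1), a.2 + y) *
        (Zr R η' a n y + Zr R η' a n (y - 1))
    refine mul_le_mul ?_ (add_le_add (ih y) (ih (y - 1)))
      (add_nonneg (Zr_nonneg _ _ _ _ _) (Zr_nonneg _ _ _ _ _))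
      (Set.indicator_nonneg (fun _ _ => (Real.exp_pos _).le) _)
    exact Set.indicator_le_indicator (Real.exp_le_exp.2 (h _))

lemma WR_mono_env (R : Set Pt) {η η' : Env} (h : ∀ p, η p ≤ η' p) (a : Pt) (n : ℕ) (y : ℤ) :
    WR μ s R η a n y ≤ WR μ s R η' a n y :=
  mul_le_mul_of_nonneg_left (Zr_mono_env R h a n y) (Real.exp_pos _).le

lemma W_mono_env {η η' : Env} (h : ∀ p, η p ≤ η' p) (a : Pt) (n : ℕ) (y : ℤ) :
    W μ s η a n y ≤ W μ s η' a n y := WR_mono_env _ h a n y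

/-- The luck `-X` of a displacement is nondecreasing in the environment. -/
lemma negX_mono (a : Pt) {n : ℕ} {y : ℤ} (h0 : 0 ≤ y) (h1 : y ≤ n) :
    Monotone fun η : Env => -X μ s η a n y := by
  intro η η' h
  show -X μ s η a n y ≤ -X μ s η' a n y
  unfold X
  rw [neg_neg, neg_neg]
  exact Real.log_le_log (W_pos η a h0 h1) (W_mono_env h a n y)

lemma exp_negX (η : Env) (a : Pt) {n : ℕ} {y : ℤ} (h0 : 0 ≤ y) (h1 : y ≤ n) :
    Real.exp (-X μ s η a n y) = W μ s η a n y := by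
  unfold X
  rw [neg_neg, Real.exp_log (W_pos η a h0 h1)]

/-- The reindexing which cuts the slab `(t, t + l]` out and shifts the rows above it by
`(l, k)`. -/
def phi (t l k : ℤ) (p : Pt) : Pt := if p.1 ≤ t then p else (p.1 + l, p.2 + k)

lemma phi_le {t l k : ℤ} {p : Pt} (h : p.1 ≤ t) : phi t l k p = p := if_pos h

lemma phi_gt {t l k : ℤ} {p : Pt} (h : t < p.1) : phi t l k p = (p.1 + l, p.2 + k) :=
  if_neg (not_le.2 h)

lemma phi_inj {t l k : ℤ} (hl : 0 ≤ l) : Function.Injective (phi t l k) := by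
  intro p q h
  rcases le_or_gt p.1 t with h1 | h1 <;> rcases le_or_gt q.1 t with h2 | h2
  · rwa [phi_le h1, phi_le h2] at h
  · rw [phi_le h1, phi_gt h2] at h
    rw [h] at h1
    simp only at h1
    omega
  · rw [phi_gt h1, phi_le h2] at h
    rw [← h] at h2
    simp only at h2
    omega
  · rw [phi_gt h1, phi_gt h2, Prod.mk.injEq] at h
    refine Prod.ext ?_ ?_
    · omega
    · omega

lemma phi_mp [IsProbabilityMeasure μ] {t l k : ℤ} (hl : 0 ≤ l) :
    MeasurePreserving (fun η : Env => fun p => η (phi t l k p)) (law μ) (law μ) :=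
  mp_reindex (μ := μ) (phi_inj hl)

lemma phi_W1 (η : Env) {l k : ℤ} (t : ℕ) (p : ℤ) :
    W μ s (fun q => η (phi t l k q)) 0 t p = W μ s η 0 t p := by
  refine W_dep_rows (μ := μ) (s := s) 0 t p fun q hq => ?_
  have h1 : q.1 ≤ (t : ℤ) := by
    have := hq.2
    simpa using this
  show η (phi t l k q) = η q
  rw [phi_le h1]

lemma phi_W2 (η : Env) {l k : ℤ} (t : ℕ) (p : ℤ) (m : ℕ) (y : ℤ) :
    W μ s (fun q => η (phi t l k q)) ((t : ℤ), p) m y =
      W μ s η ((t : ℤ) + l, p + k) m y := by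
  have h1 : W μ s (fun q => η (phi t l k q)) ((t : ℤ), p) m y =
      W μ s (sh (l, k) η) ((t : ℤ), p) m y := by
    refine W_dep_rows (μ := μ) (s := s) ((t : ℤ), p) m y fun q hq => ?_
    have h2 : (t : ℤ) < q.1 := hq.1
    show η (phi t l k q) = η (q + (l, k))
    rw [phi_gt h2]
    rfl
  rw [h1, W_sh]
  rfl

/-- The insertion weights. -/
lemma phi_sum (η : Env) {l k : ℤ} (t m : ℕ) (y : ℤ) :
    W μ s (fun q => η (phi t l k q)) 0 (t + m) y =
      ∑ p ∈ Finset.Icc (0 : ℤ) t, W μ s η 0 t p * W μ s η ((t : ℤ) + l, p + k) m (y - p) := by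
  rw [W_add]
  refine Finset.sum_congr rfl fun p _ => ?_
  have e : ((0 : Pt).1 + (t : ℤ), (0 : Pt).2 + p) = ((t : ℤ), p) := by simp
  rw [phi_W1, e, phi_W2]

/-- The mean of `X⁺` does not depend on the start. -/
lemma integral_Xp [IsProbabilityMeasure μ] (a : Pt) (n : ℕ) (y : ℤ) :
    ∫ η, max (X μ s η a n y) 0 ∂(law μ) = ∫ η, max (X μ s η 0 n y) 0 ∂(law μ) := by
  have h := mp_integral (mp_sh (μ := μ) a) (F := fun η => max (X μ s η 0 n y) 0)
    ((measurable_X (μ := μ) (s := s) 0 n y).max measurable_const).aestronglyMeasurable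
  rw [← h]
  refine integral_congr_ae (Filter.Eventually.of_forall fun η => ?_)
  show max (X μ s η a n y) 0 = max (X μ s (sh a η) 0 n y) 0
  rw [X_sh, zero_add]

lemma Xp_int [IsProbabilityMeasure μ] (hμ : Pool.Agent.W_7d29a1_h47.EM μ) (a : Pt) {n : ℕ} {y : ℤ}
    (h0 : 0 ≤ y) (h1 : y ≤ n) : Integrable (fun η => max (X μ s η a n y) 0) (law μ) :=
  (Sub.integrable hμ (Sub_X a h0 h1)).pos_part

/-- The probability that the polymer from `0` to `(t + m, y)` is at `p` at time `t`. -/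
def pin (μ : Measure ℝ) (s : ℝ) (η : Env) (t m : ℕ) (y p : ℤ) : ℝ :=
  W μ s η 0 t p * W μ s η ((t : ℤ), p) m (y - p) / W μ s η 0 (t + m) y

/-- **The slab insertion lemma.** The slab has the times `l1`, `l2`, `l3` (entrance, core, exit);
the block `z` has its core between `(t + l1, z1 z)` and `(t + l1 + l2, z2 z)` and is used by the
polymers which are in `I z` at time `t`. -/
theorem ins [IsProbabilityMeasure μ] (hμ : Pool.Agent.W_7d29a1_h47.EM μ) {κ : Type*}
    {t l1 l2 l3 m : ℕ} {k y : ℤ} (hk0 : 0 ≤ k) (hk1 : k ≤ (l1 + l2 + l3 : ℕ)) (hy0 : 0 ≤ y)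
    (hy1 : y ≤ (t + m : ℕ)) (Zs : Finset κ) (hZs : Zs.Nonempty) (I : κ → Finset ℤ)
    (hI : ∀ z ∈ Zs, I z ⊆ Finset.Icc (0 : ℤ) t)
    (hId : ∀ z ∈ Zs, ∀ z' ∈ Zs, z ≠ z' → Disjoint (I z) (I z')) {z1 z2 : κ → ℤ}
    (hz : ∀ z ∈ Zs, 0 ≤ z2 z - z1 z ∧ z2 z - z1 z ≤ l2)
    (hc : ∀ z ∈ Zs, ∀ p ∈ I z, 0 ≤ z1 z - p ∧ z1 z - p ≤ l1 ∧ 0 ≤ p + k - z2 z ∧
      p + k - z2 z ≤ l3)
    (D : κ → Finset Pt)
    (hD : ∀ z ∈ Zs, (D z : Set Pt) ⊆ rows ((t : ℤ) + l1) ((t : ℤ) + l1 + l2))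
    {G : κ → Env → ℝ} (hG : ∀ z ∈ Zs, Measurable (G z)) (hG0 : ∀ z ∈ Zs, ∀ η, 0 ≤ G z η)
    (hG1 : ∀ z ∈ Zs, ∀ η, G z η ≤ 1) (hGm : ∀ z ∈ Zs, Monotone (G z))
    (hGd : ∀ z ∈ Zs, DependsOn (G z) (D z : Set Pt))
    (hGp : ∀ z ∈ Zs, 0 < ∫ η, G z η ∂(law μ)) {Y a x : ℝ}
    (hGY : ∀ z ∈ Zs, ∀ η, G z η ≠ 0 →
      Y ≤ -X μ s η ((t : ℤ) + l1, z1 z) l2 (z2 z - z1 z))
    (ha : ∀ z ∈ Zs, ∀ p ∈ I z, ∫ η, max (X μ s η 0 l1 (z1 z - p)) 0 ∂(law μ) +
      ∫ η, max (X μ s η 0 l3 (p + k - z2 z)) 0 ∂(law μ) ≤ a)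
    (hx : ∫ η, max (X μ s η 0 (l1 + l2 + l3) k) 0 ∂(law μ) ≤ x) {Φ : ℝ → ℝ} (hΦ : Lip Φ)
    {N : ℕ} (hN : N = t + (l1 + l2 + l3) + m) :
    ∫ η, (∑ z ∈ Zs, ∑ p ∈ I z, pin μ s η t m y p) *
        (Φ (-X μ s η 0 (t + m) y + Y) - Φ (-X μ s η 0 (t + m) y)) ∂(law μ) +
      ∫ η, Φ (-X μ s η 0 (t + m) y) ∂(law μ) - ∫ η, Φ (-X μ s η 0 N (y + k)) ∂(law μ) -
      Real.log Zs.card - 1 - a * ∫ η, (∑ z ∈ Zs, ∑ p ∈ I z, pin μ s η t m y p) ∂(law μ) -
      x * (1 - ∫ η, (∑ z ∈ Zs, ∑ p ∈ I z, pin μ s η t m y p) ∂(law μ)) ≤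
    ∑ z ∈ Zs, ((∫ η, G z η * Φ (-X μ s η 0 N (y + k)) ∂(law μ)) / (∫ η, G z η ∂(law μ)) -
      ∫ η, Φ (-X μ s η 0 N (y + k)) ∂(law μ)) := by
  obtain ⟨l, hl⟩ : ∃ l : ℕ, l = l1 + l2 + l3 := ⟨_, rfl⟩
  rw [← hl] at hk1 hx hN
  have hlz : (l : ℤ) = l1 + l2 + l3 := by rw [hl]; push_cast; ring
  have hNl : N = t + (l + m) := by rw [hN, Nat.add_assoc]
  have hNz : (N : ℤ) = t + l + m := by rw [hN]; push_cast; ring
  have hmp := phi_mp (μ := μ) (t := t) (l := l) (k := k) (by positivity)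
  obtain ⟨U, hU⟩ : ∃ U : ℤ → Env → ℝ, ∀ p η, U p η =
    W μ s η 0 t p * W μ s η ((t : ℤ) + l, p + k) m (y - p) := ⟨_, fun _ _ => rfl⟩
  obtain ⟨R, hR⟩ : ∃ R : ℤ → Env → ℝ, ∀ p η, R p η = max (X μ s η ((t : ℤ), p) l k) 0 :=
    ⟨_, fun _ _ => rfl⟩
  obtain ⟨Q, hQ⟩ : ∃ Q : κ → ℤ → Env → ℝ, ∀ z p η, Q z p η =
    max (X μ s η ((t : ℤ), p) l1 (z1 z - p)) 0 +
      max (X μ s η ((t : ℤ) + l1 + l2, z2 z) l3 (p + k - z2 z)) 0 := ⟨_, fun _ _ _ => rfl⟩
  have hUe : ∀ p, U p = fun η => W μ s η 0 t p * W μ s η ((t : ℤ) + l, p + k) m (y - p) :=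
    fun p => funext (hU p)
  have hRe : ∀ p, R p = fun η => max (X μ s η ((t : ℤ), p) l k) 0 := fun p => funext (hR p)
  have hQe : ∀ z p, Q z p = fun η => max (X μ s η ((t : ℤ), p) l1 (z1 z - p)) 0 +
      max (X μ s η ((t : ℤ) + l1 + l2, z2 z) l3 (p + k - z2 z)) 0 := fun z p => funext (hQ z p)
  have hsum : ∀ η, ∑ p ∈ Finset.Icc (0 : ℤ) t, U p η =
      W μ s (fun q => η (phi t l k q)) 0 (t + m) y := fun η => by
    rw [phi_sum]
    exact Finset.sum_congr rfl fun p _ => hU p η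
  have hUpin : ∀ η p, U p η / W μ s (fun q => η (phi t l k q)) 0 (t + m) y =
      pin μ s (fun q => η (phi t l k q)) t m y p := fun η p => by
    unfold pin
    rw [phi_W1, phi_W2, hU]
  have hlog : ∀ η, Real.log (∑ p ∈ Finset.Icc (0 : ℤ) t, U p η) =
      -X μ s (fun q => η (phi t l k q)) 0 (t + m) y := fun η => by
    unfold X
    rw [neg_neg, hsum]
  have hνe : ∀ η, (∑ z ∈ Zs, ∑ p ∈ I z, U p η) / ∑ p ∈ Finset.Icc (0 : ℤ) t, U p η =
      ∑ z ∈ Zs, ∑ p ∈ I z, pin μ s (fun q => η (phi t l k q)) t m y p := fun η => by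
    rw [hsum, Finset.sum_div]
    refine Finset.sum_congr rfl fun z _ => ?_
    rw [Finset.sum_div]
    exact Finset.sum_congr rfl fun p _ => hUpin η p
  have hXm : ∀ (a : Pt) (n : ℕ) (y : ℤ), Measurable fun η : Env => max (X μ s η a n y) 0 :=
    fun a n y => (measurable_X a n y).max measurable_const
  have hXi : ∀ (a : Pt) {n : ℕ} {y : ℤ}, 0 ≤ y → y ≤ n →
      Integrable (fun η => max (X μ s η a n y) 0) (law μ) := fun a n y h0 h1 => Xp_int hμ a h0 h1
  have hyk0 : 0 ≤ y + k := by omega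
  have hyk1 : y + k ≤ (N : ℤ) := by
    rw [hNz]
    push_cast at hy1
    omega
  have hpinm : ∀ p, Measurable fun η => pin μ s η t m y p := fun p =>
    ((measurable_W 0 t p).mul (measurable_W _ m (y - p))).div (measurable_W 0 (t + m) y)
  have hνm : Measurable fun η => ∑ z ∈ Zs, ∑ p ∈ I z, pin μ s η t m y p :=
    Finset.measurable_sum _ fun z _ => Finset.measurable_sum _ fun p _ => hpinm p
  have hXm0 : Measurable fun η : Env => X μ s η 0 (t + m) y := measurable_X _ _ _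
  -- the four lower bounds for the weights
  have hlow : ∀ (η : Env) (p : ℤ), p ∈ Finset.Icc (0 : ℤ) t →
      W μ s η 0 t p * W μ s η ((t : ℤ), p) (l + m) (k + (y - p)) ≥ 0 := fun η p _ =>
    mul_nonneg (W_nonneg _ _ _ _) (W_nonneg _ _ _ _)
  have htot : ∀ η : Env, Real.exp (-X μ s η 0 N (y + k)) =
      ∑ p ∈ Finset.Icc (0 : ℤ) t, W μ s η 0 t p *
        W μ s η ((t : ℤ), p) (l + m) (k + (y - p)) := fun η => by
    rw [exp_negX η 0 hyk0 hyk1, hNl, W_add]
    refine Finset.sum_congr rfl fun p _ => ?_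
    have e : ((0 : Pt).1 + (t : ℤ), (0 : Pt).2 + p) = ((t : ℤ), p) := by simp
    rw [e, show y + k - p = k + (y - p) by ring]
  have key := ins_abs (μ := μ) (Finset.Icc (0 : ℤ) t) Zs hZs I hI hId (U := U) (R := R) (Q := Q)
    (L := fun η => -X μ s η 0 N (y + k)) hΦ
    (fun p _ => by rw [hUe]; exact (measurable_W _ _ _).mul (measurable_W _ _ _))
    (fun p _ η => by rw [hU]; exact mul_nonneg (W_nonneg _ _ _ _) (W_nonneg _ _ _ _))
    (fun η => by rw [hsum]; exact W_pos _ _ hy0 hy1)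
    (fun p _ => by rw [hRe]; exact hXm _ _ _)
    (fun p _ η => by rw [hR]; exact le_max_right _ _)
    (fun p _ => by rw [hRe]; exact hXi _ hk0 hk1)
    (fun z _ p _ => by rw [hQe]; exact (hXm _ _ _).add (hXm _ _ _))
    (fun z _ p _ η => by rw [hQ]; exact add_nonneg (le_max_right _ _) (le_max_right _ _))
    (fun z hzz p hp => by
      rw [hQe]
      obtain ⟨c1, c2, c3, c4⟩ := hc z hzz p hp
      exact (hXi _ c1 c2).add (hXi _ c3 c4))
    (rows (t : ℤ) ((t : ℤ) + l))ᶜ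
    (fun p _ η η' h => by
      rw [hU, hU]
      have h1 : W μ s η 0 t p = W μ s η' 0 t p := by
        refine W_dep_rows (μ := μ) (s := s) 0 t p fun q hq => h q fun hq' => ?_
        have h2 := hq.2
        have h3 := hq'.1
        simp only [Prod.fst_zero] at h2
        omega
      have h2 : W μ s η ((t : ℤ) + l, p + k) m (y - p) =
          W μ s η' ((t : ℤ) + l, p + k) m (y - p) := by
        refine W_dep_rows (μ := μ) (s := s) _ m (y - p) fun q hq => h q fun hq' => ?_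
        have h2 := hq.1
        have h3 := hq'.2
        simp only at h2
        omega
      rw [h1, h2])
    (fun p _ η η' h => by
      rw [compl_compl] at h
      have h1 : X μ s η ((t : ℤ), p) l k = X μ s η' ((t : ℤ), p) l k :=
        X_dep_rows (μ := μ) (s := s) _ l k fun q hq => h q hq
      rw [hR, hR, h1])
    (fun z hzz p hp η η' h => by
      rw [compl_compl] at h
      have h1 : X μ s η ((t : ℤ), p) l1 (z1 z - p) = X μ s η' ((t : ℤ), p) l1 (z1 z - p) :=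
        X_dep_rows (μ := μ) (s := s) _ l1 _ fun q hq => h q ⟨hq.1, by
          have := hq.2
          simp only at this
          omega⟩
      have h2 : X μ s η ((t : ℤ) + l1 + l2, z2 z) l3 (p + k - z2 z) =
          X μ s η' ((t : ℤ) + l1 + l2, z2 z) l3 (p + k - z2 z) :=
        X_dep_rows (μ := μ) (s := s) _ l3 _ fun q hq => h q ⟨by
          have := hq.1
          simp only at this
          omega, by
          have := hq.2
          simp only at this
          omega⟩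
      rw [hQ, hQ, h1, h2])
    D
    (fun z hzz => by
      rw [compl_compl]
      exact (hD z hzz).trans (rows_mono (by omega) (by omega)))
    (fun z hzz p hp η η' h => by
      have h1 : X μ s η ((t : ℤ), p) l1 (z1 z - p) = X μ s η' ((t : ℤ), p) l1 (z1 z - p) :=
        X_dep_rows (μ := μ) (s := s) _ l1 _ fun q hq => h q fun hq' => by
          have h3 := (hD z hzz hq').1
          have := hq.2
          simp only at this
          omega
      have h2 : X μ s η ((t : ℤ) + l1 + l2, z2 z) l3 (p + k - z2 z) =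
          X μ s η' ((t : ℤ) + l1 + l2, z2 z) l3 (p + k - z2 z) :=
        X_dep_rows (μ := μ) (s := s) _ l3 _ fun q hq => h q fun hq' => by
          have h3 := (hD z hzz hq').2
          have := hq.1
          simp only at this
          omega
      rw [hQ, hQ, h1, h2])
    hG hG0 hG1 (fun z hzz => monoOn_of_monotone (hGm z hzz) _) hGd hGp
    (measurable_X _ _ _).neg (fun z _ => monoOn_of_monotone (negX_mono 0 hyk0 hyk1) _)
    (Sub.integrable hμ (Sub_X 0 hyk0 hyk1)).neg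
    (by
      simp only [hlog]
      exact hmp.integrable_comp_of_integrable
        (Sub.integrable hμ (Sub_X (μ := μ) (s := s) 0 hy0 hy1)).neg)
    (Y := Y) (a := a) (x := x)
    (fun η => by
      rw [htot]
      refine Finset.sum_le_sum fun p _ => ?_
      rw [hU, mul_assoc]
      refine mul_le_mul_of_nonneg_left ?_ (W_nonneg _ _ _ _)
      refine le_trans ?_ (W_mul_le η ((t : ℤ), p) l m k (y - p))
      rw [mul_comm]
      refine mul_le_mul_of_nonneg_right ?_ (W_nonneg _ _ _ _)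
      rw [← exp_negX η _ hk0 hk1, Real.exp_le_exp, hR]
      exact neg_le_neg (le_max_left _ _))
    (fun z hzz η hGz => by
      rw [htot]
      refine le_trans ?_ (Finset.sum_le_sum_of_subset_of_nonneg (hI z hzz)
        fun p hp _ => hlow η p hp)
      refine Finset.sum_le_sum fun p hp => ?_
      obtain ⟨c1, c2, c3, c4⟩ := hc z hzz p hp
      obtain ⟨c5, c6⟩ := hz z hzz
      rw [hU, mul_assoc]
      refine mul_le_mul_of_nonneg_left ?_ (W_nonneg _ _ _ _)
      refine le_trans ?_ (W_mul_le η ((t : ℤ), p) l m k (y - p))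
      rw [mul_comm]
      refine mul_le_mul_of_nonneg_right ?_ (W_nonneg _ _ _ _)
      have w1 := W_mul_le (μ := μ) (s := s) η ((t : ℤ), p) l1 l2 (z1 z - p) (z2 z - z1 z)
      have w2 := W_mul_le (μ := μ) (s := s) η ((t : ℤ), p) (l1 + l2) l3
        (z1 z - p + (z2 z - z1 z)) (p + k - z2 z)
      have e1 : (((t : ℤ), p).1 + (l1 : ℤ), ((t : ℤ), p).2 + (z1 z - p)) =
          ((t : ℤ) + l1, z1 z) := by
        refine Prod.ext rfl ?_
        show p + (z1 z - p) = z1 z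
        ring
      have e2 : (((t : ℤ), p).1 + ((l1 + l2 : ℕ) : ℤ),
          ((t : ℤ), p).2 + (z1 z - p + (z2 z - z1 z))) = ((t : ℤ) + l1 + l2, z2 z) := by
        refine Prod.ext ?_ ?_
        · show (t : ℤ) + ((l1 + l2 : ℕ) : ℤ) = (t : ℤ) + l1 + l2
          push_cast
          ring
        · show p + (z1 z - p + (z2 z - z1 z)) = z2 z
          ring
      have e3 : z1 z - p + (z2 z - z1 z) + (p + k - z2 z) = k := by ring
      rw [e1] at w1
      rw [e2, e3, ← hl] at w2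
      refine le_trans ?_ w2
      refine le_trans ?_ (mul_le_mul_of_nonneg_right w1 (W_nonneg _ _ _ _))
      rw [← exp_negX η ((t : ℤ), p) c1 c2, ← exp_negX η ((t : ℤ) + l1, z1 z) c5 c6,
        ← exp_negX η ((t : ℤ) + l1 + l2, z2 z) c3 c4, ← Real.exp_add, ← Real.exp_add,
        Real.exp_le_exp, hQ]
      have h1 := hGY z hzz η hGz
      have h2 := le_max_left (X μ s η ((t : ℤ), p) l1 (z1 z - p)) 0
      have h3 := le_max_left (X μ s η ((t : ℤ) + l1 + l2, z2 z) l3 (p + k - z2 z)) 0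
      linarith)
    (fun z hzz p hp => by
      obtain ⟨c1, c2, c3, c4⟩ := hc z hzz p hp
      rw [hQe]
      have h1 := integral_add (hXi ((t : ℤ), p) c1 c2) (hXi ((t : ℤ) + l1 + l2, z2 z) c3 c4)
      refine le_trans (le_of_eq h1) ?_
      rw [integral_Xp ((t : ℤ), p), integral_Xp ((t : ℤ) + l1 + l2, z2 z)]
      exact ha z hzz p hp)
    (fun p _ => by
      rw [hRe]
      exact le_trans (le_of_eq (integral_Xp _ _ _)) hx)
    (Λ := fun η => -X μ s (fun q => η (phi t l k q)) 0 (t + m) y)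
    (ν := fun η => ∑ z ∈ Zs, ∑ p ∈ I z, pin μ s (fun q => η (phi t l k q)) t m y p)
    (fun η => (hlog η).symm) (fun η => (hνe η).symm)
  have hΦm : Measurable Φ := hΦ.mono.measurable
  have i1 := mp_integral hmp (F := fun η => (∑ z ∈ Zs, ∑ p ∈ I z, pin μ s η t m y p) *
        (Φ (-X μ s η 0 (t + m) y + Y) - Φ (-X μ s η 0 (t + m) y)))
    (hνm.mul ((hΦm.comp (hXm0.neg.add_const Y)).sub (hΦm.comp hXm0.neg))).aestronglyMeasurable
  have i2 := mp_integral hmp (F := fun η => Φ (-X μ s η 0 (t + m) y))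
    (hΦm.comp hXm0.neg).aestronglyMeasurable
  have i3 := mp_integral hmp (F := fun η => ∑ z ∈ Zs, ∑ p ∈ I z, pin μ s η t m y p)
    hνm.aestronglyMeasurable
  rw [← i1, ← i2, ← i3]
  exact key

end

end Pool.Agent.W_7d29a1_h48
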