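import Pool.Agent.W_7d29a1_h48.Block

/-!
# The variance bound for overlapping blocks: independence inside of the residue classes (helper48)
-/

namespace Pool.Agent.W_7d29a1_h48

open MeasureTheory ProbabilityTheory Finset Pool.Agent.W_7d29a1_f21

noncomputable section

/-- Slabs `j ∈ J`, blocks `i ∈ Z`; blocks with the same colour are independent, there are at most
`q` colours. -/
theorem var_phase {Ω κ τ : Type*} [MeasurableSpace Ω] {P : Measure Ω} [IsProbabilityMeasure P]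
    (J : Finset τ) (Z : Finset κ) {q : ℕ} (col : κ → ℕ) (hcol : ∀ i ∈ Z, col i < q)
    {G : τ → κ → Ω → ℝ} {T : Ω → ℝ} {p : ℝ} (hp0 : 0 < p)
    (hG : ∀ j ∈ J, ∀ i ∈ Z, Measurable (G j i))
    (hG0 : ∀ j ∈ J, ∀ i ∈ Z, ∀ g, 0 ≤ G j i g) (hG1 : ∀ j ∈ J, ∀ i ∈ Z, ∀ g, G j i g ≤ 1)
    (hp : ∀ j ∈ J, ∀ i ∈ Z, p ≤ ∫ g, G j i g ∂P)
    (hind : ∀ j ∈ J, ∀ i ∈ Z, ∀ j' ∈ J, ∀ i' ∈ Z, col i = col i' → (j, i) ≠ (j', i') →
      ∫ g, G j i g * G j' i' g ∂P = (∫ g, G j i g ∂P) * ∫ g, G j' i' g ∂P)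
    (hT : Measurable T) (hT2 : Integrable (fun g => T g ^ 2) P) {K w : ℝ} (hK0 : 0 ≤ K)
    (hw0 : 0 < w) (hw : (Z.card : ℝ) ≤ w)
    (hK : ∀ j ∈ J, K ≤
      ∑ i ∈ Z, ((∫ g, G j i g * T g ∂P) / (∫ g, G j i g ∂P) - ∫ g, T g ∂P)) :
    p * J.card * K ^ 2 / w ≤ q * (∫ g, T g ^ 2 ∂P - (∫ g, T g ∂P) ^ 2) := by
  classical
  obtain ⟨r, hr⟩ : ∃ r : τ → κ → ℝ, ∀ j i, r j i =
    (∫ g, G j i g * T g ∂P) / (∫ g, G j i g ∂P) - ∫ g, T g ∂P := ⟨_, fun _ _ => rfl⟩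
  obtain ⟨V, hV⟩ : ∃ V, V = ∫ g, T g ^ 2 ∂P - (∫ g, T g ∂P) ^ 2 := ⟨_, rfl⟩
  -- one colour
  have hone : ∀ c : ℕ, ∑ j ∈ J, ∑ i ∈ Z.filter (fun i => col i = c), p * r j i ^ 2 ≤ V := by
    intro c
    have hmem : ∀ x ∈ J ×ˢ (Z.filter fun i => col i = c), x.1 ∈ J ∧ x.2 ∈ Z ∧ col x.2 = c := by
      intro x hx
      rw [Finset.mem_product, Finset.mem_filter] at hx
      exact ⟨hx.1, hx.2.1, hx.2.2⟩
    have h1 := bessel (P := P) (J ×ˢ (Z.filter fun i => col i = c))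
      (G := fun x : τ × κ => G x.1 x.2) (T := T)
      (fun x hx => hG _ (hmem x hx).1 _ (hmem x hx).2.1)
      (fun x hx => hG0 _ (hmem x hx).1 _ (hmem x hx).2.1)
      (fun x hx => hG1 _ (hmem x hx).1 _ (hmem x hx).2.1)
      (fun x hx => lt_of_lt_of_le hp0 (hp _ (hmem x hx).1 _ (hmem x hx).2.1))
      (fun x hx y hy hxy => hind _ (hmem x hx).1 _ (hmem x hx).2.1 _ (hmem y hy).1 _
        (hmem y hy).2.1 ((hmem x hx).2.2.trans (hmem y hy).2.2.symm) fun h => hxy (by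
          rw [Prod.mk.injEq] at h
          exact Prod.ext h.1 h.2))
      hT hT2
    rw [Finset.sum_product] at h1
    rw [hV]
    refine le_trans ?_ h1
    refine Finset.sum_le_sum fun j hj => Finset.sum_le_sum fun i hi => ?_
    rw [Finset.mem_filter] at hi
    rw [hr]
    exact mul_le_mul_of_nonneg_right (hp j hj i hi.1) (sq_nonneg _)
  -- all colours
  have hall : ∑ j ∈ J, ∑ i ∈ Z, p * r j i ^ 2 ≤ q * V := by
    have e : ∀ j, ∑ i ∈ Z, p * r j i ^ 2 =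
        ∑ c ∈ Finset.range q, ∑ i ∈ Z.filter (fun i => col i = c), p * r j i ^ 2 := fun j =>
      (Finset.sum_fiberwise_of_maps_to (fun i hi => Finset.mem_range.2 (hcol i hi)) _).symm
    simp only [e]
    rw [Finset.sum_comm]
    calc ∑ c ∈ Finset.range q, ∑ j ∈ J, ∑ i ∈ Z.filter (fun i => col i = c), p * r j i ^ 2 ≤
        ∑ _c ∈ Finset.range q, V := Finset.sum_le_sum fun c _ => hone c
      _ = q * V := by rw [Finset.sum_const, Finset.card_range, nsmul_eq_mul]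
  rw [← hV]
  refine le_trans ?_ hall
  have hj : ∀ j ∈ J, p * K ^ 2 / w ≤ ∑ i ∈ Z, p * r j i ^ 2 := by
    intro j hj
    have h2 : K ≤ ∑ i ∈ Z, r j i := by
      simp only [hr]
      exact hK j hj
    have h3 : (∑ i ∈ Z, r j i) ^ 2 ≤ Z.card * ∑ i ∈ Z, r j i ^ 2 := sq_sum_le_card_mul_sum_sq
    have h4 : K ^ 2 ≤ w * ∑ i ∈ Z, r j i ^ 2 := by
      calc K ^ 2 ≤ (∑ i ∈ Z, r j i) ^ 2 := pow_le_pow_left₀ hK0 h2 2
        _ ≤ Z.card * ∑ i ∈ Z, r j i ^ 2 := h3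
        _ ≤ _ := mul_le_mul_of_nonneg_right hw (Finset.sum_nonneg fun i _ => sq_nonneg _)
    rw [← Finset.mul_sum, div_le_iff₀ hw0]
    nlinarith [mul_le_mul_of_nonneg_left h4 hp0.le]
  calc p * J.card * K ^ 2 / w = ∑ _j ∈ J, p * K ^ 2 / w := by
        rw [Finset.sum_const, nsmul_eq_mul]
        ring
    _ ≤ _ := Finset.sum_le_sum hj

end

end Pool.Agent.W_7d29a1_h48
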