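import Pool.Agent.W_7d29a1_f21.Ind

/-!
# The Harris inequality for i.i.d. families, one function integrable (helper48)
-/

namespace Pool.Agent.W_7d29a1_h48

open MeasureTheory ProbabilityTheory Finset Pool.Agent.W_7d29a1_f21

noncomputable section

/-- bounded measurable functions are integrable -/
lemma bint {Ω : Type*} [MeasurableSpace Ω] {P : Measure Ω} [IsFiniteMeasure P] {F : Ω → ℝ}
    (hF : Measurable F) {a : ℝ} (ha : ∀ u, |F u| ≤ a) : Integrable F P :=
  Integrable.of_bound hF.aestronglyMeasurable a (Filter.Eventually.of_forall ha)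

lemma bmul {Ω : Type*} {F G : Ω → ℝ} {a b : ℝ} (ha : ∀ u, |F u| ≤ a) (hb : ∀ u, |G u| ≤ b) :
    ∀ u, |F u * G u| ≤ a * b := by
  intro u
  rw [abs_mul]
  exact mul_le_mul (ha u) (hb u) (abs_nonneg _) ((abs_nonneg _).trans (ha u))

/-- Chebyshev's correlation inequality for two comonotone bounded functions. -/
lemma cheb {Ω : Type*} [MeasurableSpace Ω] {P : Measure Ω} [IsProbabilityMeasure P]
    {F G : Ω → ℝ} (hF : Measurable F) (hG : Measurable G) {a b : ℝ} (ha : ∀ u, |F u| ≤ a)
    (hb : ∀ u, |G u| ≤ b) (h : ∀ u v, 0 ≤ (F u - F v) * (G u - G v)) :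
    (∫ u, F u ∂P) * (∫ u, G u ∂P) ≤ ∫ u, F u * G u ∂P := by
  have hFi : Integrable F P := bint hF ha
  have hGi : Integrable G P := bint hG hb
  have hFGi : Integrable (fun u => F u * G u) P := bint (hF.mul hG) (bmul ha hb)
  obtain ⟨mF, hmF⟩ : ∃ mF, mF = ∫ u, F u ∂P := ⟨_, rfl⟩
  obtain ⟨mG, hmG⟩ : ∃ mG, mG = ∫ u, G u ∂P := ⟨_, rfl⟩
  obtain ⟨m, hm⟩ : ∃ m, m = ∫ u, F u * G u ∂P := ⟨_, rfl⟩
  have h1 : ∀ u, 0 ≤ F u * G u - F u * mG - (mF * G u - m) := by
    intro u
    have i1 : Integrable (fun u' => F u * G u - F u * G u') P :=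
      (integrable_const _).sub (hGi.const_mul _)
    have i2 : Integrable (fun u' => F u' * G u - F u' * G u') P := (hFi.mul_const _).sub hFGi
    have e : ∫ u', ((F u * G u - F u * G u') - (F u' * G u - F u' * G u')) ∂P =
        F u * G u - F u * mG - (mF * G u - m) := by
      rw [integral_sub i1 i2, integral_sub (integrable_const _) (hGi.const_mul _),
        integral_sub (hFi.mul_const _) hFGi, integral_const, integral_const_mul,
        integral_mul_const, ← hmF, ← hmG, ← hm]
      simp only [probReal_univ, one_smul]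
    rw [← e]
    refine integral_nonneg fun u' => ?_
    have e2 : (F u * G u - F u * G u') - (F u' * G u - F u' * G u') =
        (F u - F u') * (G u - G u') := by ring
    change 0 ≤ (F u * G u - F u * G u') - (F u' * G u - F u' * G u')
    rw [e2]
    exact h u u'
  have h2 : 0 ≤ ∫ u, (F u * G u - F u * mG - (mF * G u - m)) ∂P := integral_nonneg h1
  have i3 : Integrable (fun u => F u * G u - F u * mG) P := hFGi.sub (hFi.mul_const _)
  have i4 : Integrable (fun u => mF * G u - m) P := (hGi.const_mul _).sub (integrable_const _)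
  rw [integral_sub i3 i4,
    integral_sub hFGi (hFi.mul_const _), integral_sub (hGi.const_mul _) (integrable_const _),
    integral_const, integral_const_mul, integral_mul_const, ← hm, ← hmF, ← hmG] at h2
  simp only [probReal_univ, one_smul] at h2
  rw [← hmF, ← hmG, ← hm]
  linarith

variable {ι : Type*} {μ : Measure ℝ} [IsProbabilityMeasure μ]

/-- `F` is nondecreasing in the sites of `D`. -/
def MonoOn (D : Set ι) (F : (ι → ℝ) → ℝ) : Prop :=
  ∀ g g' : ι → ℝ, (∀ p, g p ≤ g' p) → (∀ p, p ∉ D → g p = g' p) → F g ≤ F g'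

lemma MonoOn.mono {D D' : Set ι} {F : (ι → ℝ) → ℝ} (h : MonoOn D F) (hD : D' ⊆ D) :
    MonoOn D' F := fun g g' h1 h2 => h g g' h1 fun p hp => h2 p fun hp' => hp (hD hp')

lemma monoOn_of_monotone {F : (ι → ℝ) → ℝ} (h : Monotone F) (D : Set ι) : MonoOn D F :=
  fun _ _ h1 _ => h h1

/-- averaging over one site -/
def av (μ : Measure ℝ) (z : ι) (F : (ι → ℝ) → ℝ) (g : ι → ℝ) : ℝ :=
  ∫ g', F (splice {z}ᶜ g g') ∂(lw ι μ)

lemma av_meas (z : ι) {F : (ι → ℝ) → ℝ} (hF : Measurable F) : Measurable (av μ z F) := by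
  have h1 : StronglyMeasurable (fun w : (ι → ℝ) × (ι → ℝ) => F (splice {z}ᶜ w.1 w.2)) :=
    (hF.comp (mp_splice (μ := μ) {z}ᶜ).measurable).stronglyMeasurable
  exact (h1.integral_prod_right' (ν := lw ι μ)).measurable

lemma av_bd (z : ι) {F : (ι → ℝ) → ℝ} {a : ℝ} (ha : ∀ g, |F g| ≤ a) (g : ι → ℝ) :
    |av μ z F g| ≤ a := by
  have h := norm_integral_le_of_norm_le_const (μ := lw ι μ)
    (f := fun g' => F (splice {z}ᶜ g g')) (C := a)
    (Filter.Eventually.of_forall fun u => ha _)
  rw [probReal_univ, mul_one] at h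
  exact h

lemma meas1 (z : ι) {F : (ι → ℝ) → ℝ} (hF : Measurable F) (g : ι → ℝ) :
    Measurable (fun g' : ι → ℝ => F (splice {z}ᶜ g g')) := by
  have h1 : Measurable (fun g' : ι → ℝ => splice {z}ᶜ g g') :=
    (mp_splice (μ := Measure.dirac (0 : ℝ)) {z}ᶜ).measurable.comp
      (measurable_const.prodMk measurable_id)
  exact hF.comp h1

lemma av_int (z : ι) {F : (ι → ℝ) → ℝ} (hF : Integrable F (lw ι μ)) :
    ∫ g, av μ z F g ∂(lw ι μ) = ∫ g, F g ∂(lw ι μ) := (integral_splice {z}ᶜ hF).symm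

lemma MonoOn.av {D : Set ι} {F : (ι → ℝ) → ℝ} (h : MonoOn D F) (hF : Measurable F) {a : ℝ}
    (ha : ∀ g, |F g| ≤ a) (z : ι) : MonoOn D (av μ z F) := by
  intro g g' h1 h2
  refine integral_mono (bint (meas1 z hF g) fun _ => ha _)
    (bint (meas1 z hF g') fun _ => ha _) fun u => ?_
  refine h _ _ (fun p => ?_) fun p hp => ?_
  · by_cases hz : p ∈ ({z}ᶜ : Set ι)
    · rw [splice_mem _ _ hz, splice_mem _ _ hz]
      exact h1 p
    · rw [splice_not_mem _ _ hz, splice_not_mem _ _ hz]
  · by_cases hz : p ∈ ({z}ᶜ : Set ι)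
    · rw [splice_mem _ _ hz, splice_mem _ _ hz]
      exact h2 p hp
    · rw [splice_not_mem _ _ hz, splice_not_mem _ _ hz]

lemma comon {z : ι} {F G : (ι → ℝ) → ℝ} (hF : MonoOn {z} F) (hG : MonoOn {z} G) (g u v : ι → ℝ) :
    0 ≤ (F (splice {z}ᶜ g u) - F (splice {z}ᶜ g v)) *
      (G (splice {z}ᶜ g u) - G (splice {z}ᶜ g v)) := by
  have key : ∀ (H : (ι → ℝ) → ℝ) (u v : ι → ℝ), MonoOn {z} H → u z ≤ v z →
      H (splice {z}ᶜ g u) ≤ H (splice {z}ᶜ g v) := by
    intro H u v hH huv
    refine hH _ _ (fun p => ?_) fun p hp => ?_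
    · by_cases hz : p ∈ ({z}ᶜ : Set ι)
      · rw [splice_mem _ _ hz, splice_mem _ _ hz]
      · rw [splice_not_mem _ _ hz, splice_not_mem _ _ hz]
        have hpz : p = z := by simpa using hz
        rw [hpz]
        exact huv
    · have hz : p ∈ ({z}ᶜ : Set ι) := hp
      rw [splice_mem _ _ hz, splice_mem _ _ hz]
  rcases le_total (u z) (v z) with h | h
  · exact mul_nonneg_of_nonpos_of_nonpos (sub_nonpos.2 (key F u v hF h))
      (sub_nonpos.2 (key G u v hG h))
  · exact mul_nonneg (sub_nonneg.2 (key F v u hF h)) (sub_nonneg.2 (key G v u hG h))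

open Classical in
/-- **Harris inequality**, bounded functions. -/
theorem harrisB (D : Finset ι) {F G : (ι → ℝ) → ℝ} (hF : Measurable F) (hG : Measurable G)
    {a b : ℝ} (ha : ∀ g, |F g| ≤ a) (hb : ∀ g, |G g| ≤ b)
    (hFa : MonoOn (D : Set ι) F) (hGm : MonoOn (D : Set ι) G)
    (hGd : DependsOn G (D : Set ι)) :
    (∫ g, F g ∂(lw ι μ)) * (∫ g, G g ∂(lw ι μ)) ≤ ∫ g, F g * G g ∂(lw ι μ) := by
  induction D using Finset.induction_on generalizing F G with
  | empty =>
    have h1 : ∀ g, G g = G 0 := fun g => hGd fun i hi => absurd hi (by simp)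
    have h2 : ∫ g, F g * G g ∂(lw ι μ) = (∫ g, F g ∂(lw ι μ)) * G 0 := by
      rw [← integral_mul_const]
      exact integral_congr_ae (Filter.Eventually.of_forall fun g => by
        change F g * G g = F g * G 0
        rw [h1 g])
    have h3 : ∫ g, G g ∂(lw ι μ) = G 0 := by
      have e : (fun g => G g) = fun _ => G 0 := funext h1
      rw [e, integral_const, probReal_univ, one_smul]
    rw [h2, h3]
  | insert z D hz ih =>
    have hFG : Measurable (fun g => F g * G g) := hF.mul hG
    have h1 : ∫ g, F g * G g ∂(lw ι μ) = ∫ g, av μ z (fun g => F g * G g) g ∂(lw ι μ) :=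
      (av_int z (bint hFG (bmul ha hb))).symm
    have hz1 : ({z} : Set ι) ⊆ ((insert z D : Finset ι) : Set ι) := by simp
    have hz2 : (D : Set ι) ⊆ ((insert z D : Finset ι) : Set ι) := by simp
    have h2 : ∫ g, av μ z F g * av μ z G g ∂(lw ι μ) ≤
        ∫ g, av μ z (fun g => F g * G g) g ∂(lw ι μ) := by
      refine integral_mono (bint ((av_meas z hF).mul (av_meas z hG))
          (bmul (av_bd z ha) (av_bd z hb)))
        (bint (av_meas z hFG) (av_bd z (bmul ha hb))) fun g => ?_
      exact cheb (meas1 z hF g) (meas1 z hG g) (fun _ => ha _) (fun _ => hb _)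
        (comon (hFa.mono hz1) (hGm.mono hz1) g)
    have h3 := ih (av_meas (μ := μ) z hF) (av_meas (μ := μ) z hG) (av_bd z ha)
      (av_bd z hb) ((hFa.mono hz2).av hF ha z) ((hGm.mono hz2).av hG hb z)
      (fun g g' hgg => by
        refine integral_congr_ae (Filter.Eventually.of_forall fun u => ?_)
        refine hGd fun i hi => ?_
        by_cases hiz : i ∈ ({z}ᶜ : Set ι)
        · rw [splice_mem _ _ hiz, splice_mem _ _ hiz]
          refine hgg i ?_
          rw [Finset.coe_insert] at hi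
          exact hi.resolve_left hiz
        · rw [splice_not_mem _ _ hiz, splice_not_mem _ _ hiz])
    rw [av_int z (bint hF ha), av_int z (bint hG hb)] at h3
    rw [h1]
    exact h3.trans h2

/-- truncation -/
def tr (N : ℝ) (x : ℝ) : ℝ := max (-N) (min x N)

lemma tr_abs_le {N : ℝ} (hN : 0 ≤ N) (x : ℝ) : |tr N x| ≤ N := by
  unfold tr
  rw [abs_le]
  constructor
  · exact le_max_left _ _
  · exact max_le (by linarith) (min_le_right _ _)

lemma tr_abs_le_abs {N : ℝ} (hN : 0 ≤ N) (x : ℝ) : |tr N x| ≤ |x| := by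
  unfold tr
  rcases abs_cases x with h | h <;> rcases le_total x N with h1 | h1
  · rw [min_eq_left h1, max_eq_right (by linarith)]
  · rw [min_eq_right h1, max_eq_right (by linarith), abs_of_nonneg hN, h.1]
    exact h1
  · rw [min_eq_left h1]
    rcases le_total (-N) x with h2 | h2
    · rw [max_eq_right h2]
    · rw [max_eq_left h2, abs_neg, abs_of_nonneg hN, h.1]
      linarith
  · linarith [h.2]

lemma tr_mono (N : ℝ) : Monotone (tr N) := fun _ _ h =>
  max_le_max le_rfl (min_le_min h le_rfl)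

lemma tr_meas (N : ℝ) : Measurable (tr N) := (tr_mono N).measurable

lemma tr_tendsto (x : ℝ) : Filter.Tendsto (fun N : ℕ => tr N x) Filter.atTop (nhds x) := by
  obtain ⟨K, hK⟩ := exists_nat_ge |x|
  refine tendsto_const_nhds.congr' ?_
  filter_upwards [Filter.eventually_ge_atTop K] with N hN
  have h1 : |x| ≤ (N : ℝ) := hK.trans (by exact_mod_cast hN)
  rw [abs_le] at h1
  unfold tr
  rw [min_eq_left h1.2, max_eq_right h1.1]

/-- **Harris inequality**, `F` integrable, `G` bounded. -/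
theorem harris (D : Finset ι) {F G : (ι → ℝ) → ℝ} (hF : Measurable F)
    (hFi : Integrable F (lw ι μ)) (hG : Measurable G)
    {b : ℝ} (hb : ∀ g, |G g| ≤ b) (hFa : MonoOn (D : Set ι) F) (hGm : MonoOn (D : Set ι) G)
    (hGd : DependsOn G (D : Set ι)) :
    (∫ g, F g ∂(lw ι μ)) * (∫ g, G g ∂(lw ι μ)) ≤ ∫ g, F g * G g ∂(lw ι μ) := by
  have t1 : Filter.Tendsto (fun N : ℕ => ∫ g, tr N (F g) ∂(lw ι μ)) Filter.atTop
      (nhds (∫ g, F g ∂(lw ι μ))) :=
    tendsto_integral_of_dominated_convergence (fun g => |F g|)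
      (fun N => ((tr_meas N).comp hF).aestronglyMeasurable) hFi.abs
      (fun N => Filter.Eventually.of_forall fun g => tr_abs_le_abs (Nat.cast_nonneg N) _)
      (Filter.Eventually.of_forall fun g => tr_tendsto _)
  have t2 : Filter.Tendsto (fun N : ℕ => ∫ g, tr N (F g) * G g ∂(lw ι μ)) Filter.atTop
      (nhds (∫ g, F g * G g ∂(lw ι μ))) := by
    refine tendsto_integral_of_dominated_convergence (fun g => |F g| * b)
      (fun N => (((tr_meas N).comp hF).mul hG).aestronglyMeasurable) (hFi.abs.mul_const b)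
      (fun N => Filter.Eventually.of_forall fun g => ?_)
      (Filter.Eventually.of_forall fun g => (tr_tendsto _).mul_const _)
    rw [Real.norm_eq_abs, abs_mul]
    exact mul_le_mul (tr_abs_le_abs (Nat.cast_nonneg N) _) (hb g) (abs_nonneg _) (abs_nonneg _)
  refine le_of_tendsto_of_tendsto' (t1.mul_const _) t2 fun N => ?_
  exact harrisB D ((tr_meas N).comp hF) hG (fun g => tr_abs_le (Nat.cast_nonneg N) _) hb
    (fun g g' h1 h2 => tr_mono N (hFa g g' h1 h2)) hGm hGd

end

end Pool.Agent.W_7d29a1_h48
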