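import Pool.Agent.W_7d29a1_h48.Har

/-!
# The block lemma and the Bessel inequality for independent blocks (helper48)
-/

namespace Pool.Agent.W_7d29a1_h48

open MeasureTheory ProbabilityTheory Finset Pool.Agent.W_7d29a1_f21

noncomputable section

variable {ι : Type*} {μ : Measure ℝ} [IsProbabilityMeasure μ]

/-- The block lemma: `G` is an increasing function of the block `D`, `T` is nondecreasing in the
block, `σ`, `h` do not depend on the block and `G h ≤ G σ T`. -/
theorem block (D : Finset ι) {G σ h T : (ι → ℝ) → ℝ} (hG : Measurable G)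
    (hG0 : ∀ g, 0 ≤ G g) (hG1 : ∀ g, G g ≤ 1) (hGm : MonoOn (D : Set ι) G)
    (hGd : DependsOn G (D : Set ι)) (hσ : Measurable σ) (hσ0 : ∀ g, 0 ≤ σ g)
    (hσ1 : ∀ g, σ g ≤ 1) (hσd : DependsOn σ (D : Set ι)ᶜ) (hh : Measurable h)
    (hhi : Integrable h (lw ι μ)) (hhd : DependsOn h (D : Set ι)ᶜ) (hT : Measurable T)
    (hTi : Integrable T (lw ι μ)) (hTm : MonoOn (D : Set ι) T)
    (hle : ∀ g, G g * h g ≤ G g * (σ g * T g)) :
    (∫ g, G g ∂(lw ι μ)) * (∫ g, h g ∂(lw ι μ) - ∫ g, σ g * T g ∂(lw ι μ)) ≤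
      ∫ g, G g * T g ∂(lw ι μ) - (∫ g, G g ∂(lw ι μ)) * ∫ g, T g ∂(lw ι μ) := by
  have hGb : ∀ g, |G g| ≤ 1 := fun g => by
    rw [abs_of_nonneg (hG0 g)]
    exact hG1 g
  have hσTi : Integrable (fun g => σ g * T g) (lw ι μ) := by
    refine hTi.abs.mono' (hσ.mul hT).aestronglyMeasurable (Filter.Eventually.of_forall fun g => ?_)
    rw [Real.norm_eq_abs, abs_mul, abs_of_nonneg (hσ0 g)]
    exact mul_le_of_le_one_left (abs_nonneg _) (hσ1 g)
  have hFi : Integrable (fun g => (1 - σ g) * T g) (lw ι μ) := by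
    have e : (fun g => (1 - σ g) * T g) = fun g => T g - σ g * T g := by
      funext g
      ring
    rw [e]
    exact hTi.sub hσTi
  have hFm : Measurable (fun g => (1 - σ g) * T g) := (measurable_const.sub hσ).mul hT
  have hFmo : MonoOn (D : Set ι) (fun g => (1 - σ g) * T g) := by
    intro g g' h1 h2
    have e : σ g = σ g' := hσd fun p hp => h2 p hp
    show (1 - σ g) * T g ≤ (1 - σ g') * T g'
    rw [e]
    exact mul_le_mul_of_nonneg_left (hTm g g' h1 h2) (sub_nonneg.2 (hσ1 g'))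
  have har := harris D hFm hFi hG hGb hFmo hGm hGd
  have hbd : ∀ {f : (ι → ℝ) → ℝ}, Measurable f → Integrable f (lw ι μ) →
      Integrable (fun g => G g * f g) (lw ι μ) := by
    intro f hf hfi
    refine hfi.abs.mono' (hG.mul hf).aestronglyMeasurable (Filter.Eventually.of_forall fun g => ?_)
    rw [Real.norm_eq_abs, abs_mul, abs_of_nonneg (hG0 g)]
    exact mul_le_of_le_one_left (abs_nonneg _) (hG1 g)
  have i1 : Integrable (fun g => G g * (σ g * T g)) (lw ι μ) := hbd (hσ.mul hT) hσTi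
  have i2 : Integrable (fun g => G g * h g) (lw ι μ) := hbd hh hhi
  have i3 : Integrable (fun g => (1 - σ g) * T g * G g) (lw ι μ) := by
    have := hbd hFm hFi
    refine this.congr (Filter.Eventually.of_forall fun g => ?_)
    show G g * ((1 - σ g) * T g) = (1 - σ g) * T g * G g
    ring
  have e1 : ∫ g, G g * T g ∂(lw ι μ) =
      ∫ g, G g * (σ g * T g) ∂(lw ι μ) + ∫ g, (1 - σ g) * T g * G g ∂(lw ι μ) := by
    rw [← integral_add i1 i3]
    refine integral_congr_ae (Filter.Eventually.of_forall fun g => ?_)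
    show G g * T g = G g * (σ g * T g) + (1 - σ g) * T g * G g
    ring
  have e2 : ∫ g, G g * h g ∂(lw ι μ) = (∫ g, G g ∂(lw ι μ)) * ∫ g, h g ∂(lw ι μ) :=
    integral_mul_indep (D : Set ι) hG hh hGd hhd
  have e3 : ∫ g, G g * h g ∂(lw ι μ) ≤ ∫ g, G g * (σ g * T g) ∂(lw ι μ) :=
    integral_mono i2 i1 hle
  have e4 : ∫ g, (1 - σ g) * T g ∂(lw ι μ) =
      ∫ g, T g ∂(lw ι μ) - ∫ g, σ g * T g ∂(lw ι μ) := by
    rw [← integral_sub hTi hσTi]
    refine integral_congr_ae (Filter.Eventually.of_forall fun g => ?_)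
    show (1 - σ g) * T g = T g - σ g * T g
    ring
  rw [e4] at har
  rw [e1]
  rw [e2] at e3
  nlinarith [har, e3]

/-- Bessel's inequality for independent functions with values in `[0, 1]`. -/
theorem bessel {Ω κ : Type*} [MeasurableSpace Ω] {P : Measure Ω} [IsProbabilityMeasure P]
    (I : Finset κ) {G : κ → Ω → ℝ} {T : Ω → ℝ} (hG : ∀ i ∈ I, Measurable (G i))
    (hG0 : ∀ i ∈ I, ∀ g, 0 ≤ G i g) (hG1 : ∀ i ∈ I, ∀ g, G i g ≤ 1)
    (hp : ∀ i ∈ I, 0 < ∫ g, G i g ∂P)
    (hind : ∀ i ∈ I, ∀ j ∈ I, i ≠ j →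
      ∫ g, G i g * G j g ∂P = (∫ g, G i g ∂P) * ∫ g, G j g ∂P)
    (hT : Measurable T) (hT2 : Integrable (fun g => T g ^ 2) P) :
    ∑ i ∈ I, (∫ g, G i g ∂P) * ((∫ g, G i g * T g ∂P) / (∫ g, G i g ∂P) - ∫ g, T g ∂P) ^ 2 ≤
      ∫ g, T g ^ 2 ∂P - (∫ g, T g ∂P) ^ 2 := by
  classical
  have hTi : Integrable T P := by
    refine ((integrable_const (1 : ℝ)).add hT2).mono' hT.aestronglyMeasurable
      (Filter.Eventually.of_forall fun g => ?_)
    rw [Real.norm_eq_abs]
    show |T g| ≤ 1 + T g ^ 2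
    rw [← sq_abs (T g)]
    nlinarith [sq_nonneg (|T g| - 1), sq_nonneg (|T g|)]
  obtain ⟨m, hm⟩ : ∃ m, m = ∫ g, T g ∂P := ⟨_, rfl⟩
  obtain ⟨p, hpdef⟩ : ∃ p : κ → ℝ, p = fun i => ∫ g, G i g ∂P := ⟨_, rfl⟩
  obtain ⟨q, hqdef⟩ : ∃ q : κ → ℝ, q = fun i => ∫ g, G i g * T g ∂P := ⟨_, rfl⟩
  obtain ⟨c, hc⟩ : ∃ c : κ → ℝ, c = fun i => q i / p i - m := ⟨_, rfl⟩
  have hGi : ∀ i ∈ I, Integrable (G i) P := fun i hi => bint (hG i hi) (a := 1) fun g => by
    rw [abs_of_nonneg (hG0 i hi g)]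
    exact hG1 i hi g
  have hGTi : ∀ i ∈ I, Integrable (fun g => G i g * T g) P := fun i hi => by
    refine hTi.abs.mono' ((hG i hi).mul hT).aestronglyMeasurable
      (Filter.Eventually.of_forall fun g => ?_)
    rw [Real.norm_eq_abs, abs_mul, abs_of_nonneg (hG0 i hi g)]
    exact mul_le_of_le_one_left (abs_nonneg _) (hG1 i hi g)
  have hGGi : ∀ i ∈ I, ∀ j ∈ I, Integrable (fun g => G i g * G j g) P := fun i hi j hj => by
    refine bint ((hG i hi).mul (hG j hj)) (a := 1) fun g => ?_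
    rw [abs_of_nonneg (mul_nonneg (hG0 i hi g) (hG0 j hj g))]
    exact mul_le_one₀ (hG1 i hi g) (hG0 j hj g) (hG1 j hj g)
  obtain ⟨U, hU⟩ : ∃ U : Ω → ℝ, U = fun g => ∑ i ∈ I, c i * (G i g - p i) := ⟨_, rfl⟩
  -- the square
  have hcross : ∀ i ∈ I, ∫ g, (G i g - p i) * T g ∂P = p i * (c i + m) - p i * m := by
    intro i hi
    have e : (fun g => (G i g - p i) * T g) = fun g => G i g * T g - p i * T g := by
      funext g
      ring
    rw [e, integral_sub (hGTi i hi) (hTi.const_mul _), integral_const_mul, ← hm, hc]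
    have hpi : 0 < p i := by
      rw [hpdef]
      exact hp i hi
    have : ∫ g, G i g * T g ∂P = q i := by rw [hqdef]
    rw [this]
    field_simp
    ring
  have hcent : ∀ i ∈ I, ∫ g, (G i g - p i) ∂P = 0 := by
    intro i hi
    rw [integral_sub (hGi i hi) (integrable_const _), integral_const, probReal_univ, one_smul,
      hpdef]
    simp
  have hgg : ∀ i ∈ I, ∀ j ∈ I, i ≠ j → ∫ g, (G i g - p i) * (G j g - p j) ∂P = 0 := by
    intro i hi j hj hij
    have e : (fun g => (G i g - p i) * (G j g - p j)) =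
        fun g => (G i g * G j g - p j * G i g) - (p i * G j g - p i * p j) := by
      funext g
      ring
    have k1 : Integrable (fun g => G i g * G j g - p j * G i g) P :=
      (hGGi i hi j hj).sub ((hGi i hi).const_mul _)
    have k2 : Integrable (fun g => p i * G j g - p i * p j) P :=
      ((hGi j hj).const_mul _).sub (integrable_const _)
    rw [e, integral_sub k1 k2,
      integral_sub (hGGi i hi j hj) ((hGi i hi).const_mul _),
      integral_sub ((hGi j hj).const_mul _) (integrable_const _), hind i hi j hj hij,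
      integral_const_mul, integral_const_mul, integral_const, probReal_univ, one_smul, hpdef]
    ring
  have hgs : ∀ i ∈ I, ∫ g, (G i g - p i) * (G i g - p i) ∂P ≤ p i := by
    intro i hi
    have e : (fun g => (G i g - p i) * (G i g - p i)) =
        fun g => (G i g * G i g - p i * G i g) - (p i * G i g - p i * p i) := by
      funext g
      ring
    have k1 : Integrable (fun g => G i g * G i g - p i * G i g) P :=
      (hGGi i hi i hi).sub ((hGi i hi).const_mul _)
    have k2 : Integrable (fun g => p i * G i g - p i * p i) P :=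
      ((hGi i hi).const_mul _).sub (integrable_const _)
    rw [e, integral_sub k1 k2,
      integral_sub (hGGi i hi i hi) ((hGi i hi).const_mul _),
      integral_sub ((hGi i hi).const_mul _) (integrable_const _),
      integral_const_mul, integral_const, probReal_univ, one_smul]
    have h1 : ∫ g, G i g * G i g ∂P ≤ p i := by
      rw [hpdef]
      refine integral_mono (hGGi i hi i hi) (hGi i hi) fun g => ?_
      show G i g * G i g ≤ G i g
      exact mul_le_of_le_one_left (hG0 i hi g) (hG1 i hi g)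
    have h2 : ∫ g, G i g ∂P = p i := by rw [hpdef]
    rw [h2]
    nlinarith [sq_nonneg (p i)]
  have hb : ∀ i ∈ I, ∀ g, |G i g - p i| ≤ 1 + |p i| := by
    intro i hi g
    refine (abs_sub _ _).trans ?_
    rw [abs_of_nonneg (hG0 i hi g)]
    linarith [hG1 i hi g]
  have hggi : ∀ i ∈ I, ∀ j ∈ I, Integrable (fun g => (G i g - p i) * (G j g - p j)) P :=
    fun i hi j hj => bint (((hG i hi).sub measurable_const).mul ((hG j hj).sub measurable_const))
      (bmul (hb i hi) (hb j hj))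
  have hgTi : ∀ i ∈ I, Integrable (fun g => (G i g - p i) * T g) P := fun i hi => by
    have e : (fun g => (G i g - p i) * T g) = fun g => G i g * T g - p i * T g := by
      funext g
      ring
    rw [e]
    exact (hGTi i hi).sub (hTi.const_mul _)
  -- expansion
  have hU2 : ∀ g, U g ^ 2 = ∑ i ∈ I, ∑ j ∈ I, c i * c j * ((G i g - p i) * (G j g - p j)) := by
    intro g
    rw [hU]
    simp only
    rw [sq, Finset.sum_mul_sum]
    refine Finset.sum_congr rfl fun i _ => Finset.sum_congr rfl fun j _ => ?_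
    ring
  have hUT : ∀ g, U g * T g = ∑ i ∈ I, c i * ((G i g - p i) * T g) := by
    intro g
    rw [hU]
    simp only
    rw [Finset.sum_mul]
    refine Finset.sum_congr rfl fun i _ => ?_
    ring
  have hU2i : Integrable (fun g => U g ^ 2) P := by
    simp only [hU2]
    exact integrable_finsetSum _ fun i hi => integrable_finsetSum _ fun j hj =>
      (hggi i hi j hj).const_mul _
  have hUTi : Integrable (fun g => U g * T g) P := by
    simp only [hUT]
    exact integrable_finsetSum _ fun i hi => (hgTi i hi).const_mul _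
  have hgi : ∀ i ∈ I, Integrable (fun g => c i * (G i g - p i)) P := fun i hi =>
    ((hGi i hi).sub (integrable_const _)).const_mul _
  have hUi : Integrable U P := by
    rw [hU]
    exact integrable_finsetSum _ hgi
  have IU : ∫ g, U g ∂P = 0 := by
    have e : ∫ g, U g ∂P = ∫ g, ∑ i ∈ I, c i * (G i g - p i) ∂P := by rw [hU]
    rw [e, integral_finsetSum _ hgi]
    refine Finset.sum_eq_zero fun i hi => ?_
    rw [integral_const_mul, hcent i hi, mul_zero]
  have IU2 : ∫ g, U g ^ 2 ∂P ≤ ∑ i ∈ I, p i * c i ^ 2 := by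
    simp only [hU2]
    rw [integral_finsetSum _ fun i hi => integrable_finsetSum _ fun j hj =>
      (hggi i hi j hj).const_mul _]
    refine Finset.sum_le_sum fun i hi => ?_
    rw [integral_finsetSum _ fun j hj => (hggi i hi j hj).const_mul _,
      Finset.sum_eq_single_of_mem i hi]
    · rw [integral_const_mul]
      have := mul_le_mul_of_nonneg_left (hgs i hi) (mul_self_nonneg (c i))
      nlinarith [this]
    · intro j hj hji
      rw [integral_const_mul, hgg i hi j hj (Ne.symm hji), mul_zero]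
  have IUT : ∫ g, U g * T g ∂P = ∑ i ∈ I, p i * c i ^ 2 := by
    simp only [hUT]
    rw [integral_finsetSum _ fun i hi => (hgTi i hi).const_mul _]
    refine Finset.sum_congr rfl fun i hi => ?_
    rw [integral_const_mul, hcross i hi]
    ring
  have key : 0 ≤ ∫ g, (T g - m - U g) ^ 2 ∂P := integral_nonneg fun g => sq_nonneg _
  have e : (fun g => (T g - m - U g) ^ 2) = fun g =>
      (T g ^ 2 - 2 * m * T g + m ^ 2) + (U g ^ 2 - 2 * (U g * T g) + 2 * m * U g) := by
    funext g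
    ring
  have j1 : Integrable (fun g => T g ^ 2 - 2 * m * T g) P := hT2.sub (hTi.const_mul _)
  have j2 : Integrable (fun g => U g ^ 2 - 2 * (U g * T g)) P := hU2i.sub (hUTi.const_mul _)
  have j3 : Integrable (fun g => T g ^ 2 - 2 * m * T g + m ^ 2) P := j1.add (integrable_const _)
  have j4 : Integrable (fun g => U g ^ 2 - 2 * (U g * T g) + 2 * m * U g) P :=
    j2.add (hUi.const_mul _)
  rw [e, integral_add j3 j4, integral_add j1 (integrable_const _), integral_add j2 (hUi.const_mul _),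
    integral_sub hT2 (hTi.const_mul _), integral_sub hU2i (hUTi.const_mul _),
    integral_const_mul, integral_const_mul, integral_const_mul, integral_const, probReal_univ,
    one_smul, IU, IUT, ← hm] at key
  have goal : ∑ i ∈ I, p i * c i ^ 2 ≤ ∫ g, T g ^ 2 ∂P - m ^ 2 := by
    nlinarith [key, IU2]
  rw [hc, hpdef, hqdef] at goal
  rw [← hm]
  exact goal

/-- The variance is at least `p K ^ 2 / w` for each family of at most `w` blocks with total gain
`K`. -/
theorem var_blocks {Ω κ τ : Type*} [MeasurableSpace Ω] {P : Measure Ω} [IsProbabilityMeasure P]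
    (J : Finset τ) (Z : τ → Finset κ) {G : τ → κ → Ω → ℝ} {T : Ω → ℝ} {p : ℝ} (hp0 : 0 ≤ p)
    {K w : τ → ℝ}
    (hG : ∀ j ∈ J, ∀ i ∈ Z j, Measurable (G j i))
    (hG0 : ∀ j ∈ J, ∀ i ∈ Z j, ∀ g, 0 ≤ G j i g) (hG1 : ∀ j ∈ J, ∀ i ∈ Z j, ∀ g, G j i g ≤ 1)
    (hpos : ∀ j ∈ J, ∀ i ∈ Z j, 0 < ∫ g, G j i g ∂P)
    (hp : ∀ j ∈ J, ∀ i ∈ Z j, p ≤ ∫ g, G j i g ∂P)
    (hind : ∀ j ∈ J, ∀ i ∈ Z j, ∀ j' ∈ J, ∀ i' ∈ Z j', (j, i) ≠ (j', i') →
      ∫ g, G j i g * G j' i' g ∂P = (∫ g, G j i g ∂P) * ∫ g, G j' i' g ∂P)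
    (hT : Measurable T) (hT2 : Integrable (fun g => T g ^ 2) P)
    (hK0 : ∀ j ∈ J, 0 ≤ K j) (hw0 : ∀ j ∈ J, 0 < w j) (hw : ∀ j ∈ J, ((Z j).card : ℝ) ≤ w j)
    (hK : ∀ j ∈ J, K j ≤
      ∑ i ∈ Z j, ((∫ g, G j i g * T g ∂P) / (∫ g, G j i g ∂P) - ∫ g, T g ∂P)) :
    p * ∑ j ∈ J, K j ^ 2 / w j ≤ ∫ g, T g ^ 2 ∂P - (∫ g, T g ∂P) ^ 2 := by
  have h1 := bessel (P := P) (J.sigma Z) (G := fun x => G x.1 x.2) (T := T)
    (fun x hx => hG _ (Finset.mem_sigma.1 hx).1 _ (Finset.mem_sigma.1 hx).2)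
    (fun x hx => hG0 _ (Finset.mem_sigma.1 hx).1 _ (Finset.mem_sigma.1 hx).2)
    (fun x hx => hG1 _ (Finset.mem_sigma.1 hx).1 _ (Finset.mem_sigma.1 hx).2)
    (fun x hx => hpos _ (Finset.mem_sigma.1 hx).1 _ (Finset.mem_sigma.1 hx).2)
    (fun x hx y hy hxy => hind _ (Finset.mem_sigma.1 hx).1 _ (Finset.mem_sigma.1 hx).2 _
      (Finset.mem_sigma.1 hy).1 _ (Finset.mem_sigma.1 hy).2 fun h => hxy (by
        rw [Prod.mk.injEq] at h
        exact Sigma.ext h.1 (heq_of_eq h.2)))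
    hT hT2
  rw [Finset.sum_sigma] at h1
  refine le_trans ?_ h1
  rw [Finset.mul_sum]
  refine Finset.sum_le_sum fun j hj => ?_
  obtain ⟨r, hr⟩ : ∃ r : κ → ℝ, r = fun i =>
    (∫ g, G j i g * T g ∂P) / (∫ g, G j i g ∂P) - ∫ g, T g ∂P := ⟨_, rfl⟩
  have h2 : K j ≤ ∑ i ∈ Z j, r i := by
    rw [hr]
    exact hK j hj
  have h3 : (∑ i ∈ Z j, r i) ^ 2 ≤ (Z j).card * ∑ i ∈ Z j, r i ^ 2 := sq_sum_le_card_mul_sum_sq
  have h4 : K j ^ 2 ≤ w j * ∑ i ∈ Z j, r i ^ 2 := by
    calc K j ^ 2 ≤ (∑ i ∈ Z j, r i) ^ 2 := pow_le_pow_left₀ (hK0 j hj) h2 2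
      _ ≤ (Z j).card * ∑ i ∈ Z j, r i ^ 2 := h3
      _ ≤ _ := mul_le_mul_of_nonneg_right (hw j hj) (Finset.sum_nonneg fun i _ => sq_nonneg _)
  have h5 : K j ^ 2 / w j ≤ ∑ i ∈ Z j, r i ^ 2 := by
    rw [div_le_iff₀ (hw0 j hj)]
    linarith
  calc p * (K j ^ 2 / w j) ≤ p * ∑ i ∈ Z j, r i ^ 2 := mul_le_mul_of_nonneg_left h5 hp0
    _ = ∑ i ∈ Z j, p * r i ^ 2 := Finset.mul_sum _ _ _
    _ ≤ _ := by
      refine Finset.sum_le_sum fun i hi => ?_
      rw [hr]
      exact mul_le_mul_of_nonneg_right (hp j hj i hi) (sq_nonneg _)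

end

end Pool.Agent.W_7d29a1_h48
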