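import Pool.Agent.W_7d29a1_h48.Step

/-!
# Many steps: the centre of the truncated mean climbs, or the variance is large (helper48)
-/

namespace Pool.Agent.W_7d29a1_h48

open MeasureTheory ProbabilityTheory Finset Pool.Agent.W_7d29a1_f21 Pool.Agent.W_7d29a1_F

noncomputable section

/-- The clip function with centre `c` and half width `H`. -/
def clip (c H u : ℝ) : ℝ := max (c - H) (min u (c + H))

lemma clip_lip (c H : ℝ) : Lip (clip c H) := by
  constructor
  · intro u v h
    exact max_le_max le_rfl (min_le_min h le_rfl)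
  · intro u d hd
    unfold clip
    refine max_le ?_ ?_
    · linarith [le_max_left (c - H) (min u (c + H))]
    · have h1 : min (u + d) (c + H) ≤ min u (c + H) + d := by
        rcases le_total u (c + H) with h | h
        · rw [min_eq_left h]
          exact min_le_left _ _
        · rw [min_eq_right h]
          linarith [min_le_right (u + d) (c + H)]
      linarith [le_max_right (c - H) (min u (c + H))]

lemma clip_mono_c {c c' : ℝ} (H : ℝ) (h : c ≤ c') (u : ℝ) : clip c H u ≤ clip c' H u :=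
  max_le_max (by linarith) (min_le_min le_rfl (by linarith))

lemma clip_ge (c H u : ℝ) : c - H ≤ clip c H u := le_max_left _ _

lemma clip_le (c : ℝ) {H : ℝ} (hH : 0 ≤ H) (u : ℝ) : clip c H u ≤ c + H :=
  max_le (by linarith) (min_le_right _ _)

/-- Lower bound of a mean by a bound outside of a small event. -/
lemma mean_low {Ω : Type*} [MeasurableSpace Ω] {P : Measure Ω} [IsProbabilityMeasure P]
    {f : Ω → ℝ} (hf : Integrable f P) {B : Set Ω} (hB : MeasurableSet B) {β H r : ℝ}
    (hβ : P.real B ≤ β) (hr : -H ≤ r) (h1 : ∀ η, η ∉ B → r ≤ f η) (h2 : ∀ η, -H ≤ f η) :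
    r * (1 - β) - H * β ≤ ∫ η, f η ∂P := by
  classical
  have hi : Integrable (fun η => r - (r + H) * Set.indicator B (fun _ => (1 : ℝ)) η) P :=
    (integrable_const r).sub (((integrable_const (1 : ℝ)).indicator hB).const_mul _)
  have h3 := integral_mono hi hf fun η => by
    show r - (r + H) * Set.indicator B (fun _ => (1 : ℝ)) η ≤ f η
    by_cases h : η ∈ B
    · rw [Set.indicator_of_mem h]
      linarith [h2 η]
    · rw [Set.indicator_of_notMem h]
      linarith [h1 η h]
  have h4 : ∫ η, (r - (r + H) * Set.indicator B (fun _ => (1 : ℝ)) η) ∂P =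
      r - (r + H) * P.real B := by
    rw [integral_sub (integrable_const r) (((integrable_const (1 : ℝ)).indicator hB).const_mul _),
      integral_const_mul, integral_indicator hB, integral_const, probReal_univ, one_smul]
    simp
  rw [h4] at h3
  have h5 := mul_le_mul_of_nonneg_left hβ (show 0 ≤ r + H by linarith)
  linarith

variable {μ : Measure ℝ} [IsProbabilityMeasure μ]

/-- The variance of a truncated luck which is concentrated. -/
lemma var_clip (N : ℕ) {c H s β : ℝ} (hH : 0 ≤ H) {m : ℝ} (hβ : (law μ).real {η | s ≤ |Fl μ N η - m|} ≤ β) :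
    ∫ η, clip c H (Fl μ N η) ^ 2 ∂(law μ) - (∫ η, clip c H (Fl μ N η) ∂(law μ)) ^ 2 ≤
      s ^ 2 + (2 * H) ^ 2 * β := by
  classical
  obtain ⟨T, hT⟩ : ∃ T : Env → ℝ, T = fun η => clip c H (Fl μ N η) := ⟨_, rfl⟩
  have hFm : Measurable (Fl μ N) := (Fl_sub N).1
  have hTm : Measurable T := by
    rw [hT]
    exact (clip_lip c H).mono.measurable.comp hFm
  have hTb : ∀ η, |T η| ≤ |c| + H := fun η => by
    rw [hT]
    have h1 := clip_ge c H (Fl μ N η)
    have h2 := clip_le c hH (Fl μ N η)
    rw [abs_le]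
    constructor
    · linarith [neg_abs_le c]
    · linarith [le_abs_self c]
  have hTi : Integrable T (law μ) := bint hTm hTb
  have hT2i : Integrable (fun η => T η ^ 2) (law μ) := by
    have := bint (P := law μ) (hTm.mul hTm) (bmul hTb hTb)
    refine this.congr (Filter.Eventually.of_forall fun η => ?_)
    show T η * T η = T η ^ 2
    ring
  obtain ⟨k, hk⟩ : ∃ k, k = clip c H m := ⟨_, rfl⟩
  obtain ⟨I, hI⟩ : ∃ I, I = ∫ η, T η ∂(law μ) := ⟨_, rfl⟩
  have h1 : ∫ η, (T η - k) ^ 2 ∂(law μ) = ∫ η, T η ^ 2 ∂(law μ) - 2 * k * I + k ^ 2 := by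
    have e : (fun η => (T η - k) ^ 2) = fun η => T η ^ 2 - 2 * k * T η + k ^ 2 := by
      funext η
      ring
    have i1 : Integrable (fun η => T η ^ 2 - 2 * k * T η) (law μ) := hT2i.sub (hTi.const_mul _)
    rw [e, integral_add i1 (integrable_const _), integral_sub hT2i (hTi.const_mul _),
      integral_const_mul, integral_const, probReal_univ, one_smul, hI]
  have hB : MeasurableSet {η | s ≤ |Fl μ N η - m|} :=
    measurableSet_le measurable_const (hFm.sub_const m).abs
  have hpt : ∀ η, (T η - k) ^ 2 ≤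
      s ^ 2 + (2 * H) ^ 2 * Set.indicator {η | s ≤ |Fl μ N η - m|} (fun _ => (1 : ℝ)) η := by
    intro η
    by_cases h : s ≤ |Fl μ N η - m|
    · rw [Set.indicator_of_mem (show η ∈ {η | s ≤ |Fl μ N η - m|} from h)]
      have h2 : |T η - k| ≤ 2 * H := by
        rw [hT, hk, abs_le]
        constructor
        · linarith [clip_ge c H (Fl μ N η), clip_le c hH m]
        · linarith [clip_ge c H m, clip_le c hH (Fl μ N η)]
      have h3 := pow_le_pow_left₀ (abs_nonneg _) h2 2
      rw [sq_abs] at h3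
      nlinarith [sq_nonneg s]
    · rw [Set.indicator_of_notMem (show η ∉ {η | s ≤ |Fl μ N η - m|} from h)]
      rw [not_le] at h
      have h2 : |T η - k| ≤ |Fl μ N η - m| := by
        rw [hT, hk]
        have hl := clip_lip c H
        rcases le_total m (Fl μ N η) with h5 | h5
        · have h6 := hl.mono h5
          have h7 := hl.lip m (Fl μ N η - m) (by linarith)
          rw [add_sub_cancel] at h7
          rw [abs_of_nonneg (by linarith), abs_of_nonneg (by linarith)]
          linarith
        · have h6 := hl.mono h5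
          have h7 := hl.lip (Fl μ N η) (m - Fl μ N η) (by linarith)
          rw [add_sub_cancel] at h7
          rw [abs_of_nonpos (by linarith), abs_of_nonpos (by linarith)]
          linarith
      have h3 := pow_le_pow_left₀ (abs_nonneg _) (h2.trans h.le) 2
      rw [sq_abs] at h3
      simp only [mul_zero, add_zero]
      exact h3
  have hint : Integrable (fun η => s ^ 2 + (2 * H) ^ 2 *
      Set.indicator {η | s ≤ |Fl μ N η - m|} (fun _ => (1 : ℝ)) η) (law μ) :=
    (integrable_const _).add (((integrable_const (1 : ℝ)).indicator hB).const_mul _)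
  have hTk : Integrable (fun η => (T η - k) ^ 2) (law μ) := by
    have e : (fun η => (T η - k) ^ 2) = fun η => T η ^ 2 - 2 * k * T η + k ^ 2 := by
      funext η
      ring
    rw [e]
    exact (hT2i.sub (hTi.const_mul _)).add (integrable_const _)
  have h2 := integral_mono hTk hint hpt
  have h3 : ∫ η, (s ^ 2 + (2 * H) ^ 2 *
      Set.indicator {η | s ≤ |Fl μ N η - m|} (fun _ => (1 : ℝ)) η) ∂(law μ) =
      s ^ 2 + (2 * H) ^ 2 * (law μ).real {η | s ≤ |Fl μ N η - m|} := by
    rw [integral_add (integrable_const _) (((integrable_const (1 : ℝ)).indicator hB).const_mul _),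
      integral_const_mul, integral_indicator hB, integral_const, probReal_univ, one_smul]
    simp
  have h4 := mul_le_mul_of_nonneg_left hβ (sq_nonneg (2 * H))
  rw [h3, h1] at h2
  have h5 : ∫ η, clip c H (Fl μ N η) ^ 2 ∂(law μ) = ∫ η, T η ^ 2 ∂(law μ) := by rw [hT]
  have h6 : ∫ η, clip c H (Fl μ N η) ∂(law μ) = I := by rw [hI, hT]
  rw [h5, h6]
  nlinarith [sq_nonneg (I - k)]

/-- **Many steps.** -/
theorem many (hμ : Pool.Agent.W_7d29a1_h47.EM μ) {m M N₀ J Z q Ms : ℕ} {wc : ℤ}
    {b Y p A x δ β s E₀ : ℝ} (hm : Even m) (hM : Even M) (hN : Even N₀) (hwc : 0 < wc)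
    (hwm : 2 * wc ≤ m) (hq1 : 0 < q) (hq : 2 * b < q * wc) (hZ : 1 ≤ Z)
    (hJ : J * (m + M + m) ≤ N₀) (hY : 0 < Y) (hp0 : 0 < p)
    (hp : p ≤ (law μ).real {η | Ev μ b Y M 0 η})
    (hA : ∀ u : ℤ, (m : ℤ) / 2 - wc ≤ u → u ≤ (m : ℤ) / 2 + wc →
      ∫ η, max (X μ 0 η 0 m u) 0 ∂(law μ) ≤ A)
    (hx : ∫ η, max (X μ 0 η 0 (m + M + m) (((m + M + m : ℕ) : ℤ) / 2)) 0 ∂(law μ) ≤ x)
    (hδ : ∀ i < Ms, ∀ t : ℕ, Even t → t ≤ N₀ + i * (m + M + m) → 1 - δ ≤
      ∫ η, ∑ u ∈ win t wc Z, pin μ 0 η t (N₀ + i * (m + M + m) - t)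
        (((N₀ + i * (m + M + m) : ℕ) : ℤ) / 2) u ∂(law μ))
    (hδ1 : δ ≤ 1 / 8) (hβ1 : β ≤ 1 / 8) (hβ0 : 0 ≤ β) (hs : 0 ≤ s)
    (hcon : ∀ i ≤ Ms, (law μ).real {η | s ≤ |Fl μ (N₀ + i * (m + M + m)) η -
      ∫ ξ, Fl μ (N₀ + i * (m + M + m)) ξ ∂(law μ)|} ≤ β)
    (hsmall : Real.log (2 * Z) + 1 + 2 * A + x * δ ≤ Y / 8)
    (hneg : ∫ ξ, Fl μ (N₀ + Ms * (m + M + m)) ξ ∂(law μ) ≤ 0)
    (hE : -E₀ ≤ ∫ ξ, Fl μ N₀ ξ ∂(law μ))
    (hbig : E₀ + 2 * s + 2 * (8 * (Y + s)) / 7 < Ms * Y / 4) :
    p * J * (Y / 8) ^ 2 / (2 * Z) ≤ q * (s ^ 2 + (2 * (8 * (Y + s))) ^ 2 * β) := by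
  by_contra hcontra
  rw [not_le] at hcontra
  obtain ⟨l, hl⟩ : ∃ l : ℕ, l = m + M + m := ⟨_, rfl⟩
  obtain ⟨H, hH⟩ : ∃ H : ℝ, H = 8 * (Y + s) := ⟨_, rfl⟩
  rw [← hl] at hJ hδ hcon hneg
  rw [← hH] at hcontra hbig
  have hH0 : 0 < H := by rw [hH]; linarith
  obtain ⟨F, hF⟩ : ∃ F : ℕ → Env → ℝ, ∀ i, F i = Fl μ (N₀ + i * l) := ⟨_, fun _ => rfl⟩
  obtain ⟨mu, hmu⟩ : ∃ mu : ℕ → ℝ, ∀ i, mu i = ∫ ξ, F i ξ ∂(law μ) := ⟨_, fun _ => rfl⟩
  have hFm : ∀ i, Measurable (F i) := fun i => by
    rw [hF]
    exact (Fl_sub _).1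
  have hFi : ∀ i, Integrable (F i) (law μ) := fun i => by
    rw [hF]
    exact (Fl_sub _).integrable hμ
  obtain ⟨B, hBd⟩ : ∃ B : ℕ → Set Env, ∀ i, B i = {η | s ≤ |F i η - mu i|} := ⟨_, fun _ => rfl⟩
  have hBm : ∀ i, MeasurableSet (B i) := fun i => by
    rw [hBd]
    exact measurableSet_le measurable_const ((hFm i).sub_const _).abs
  have hBp : ∀ i ≤ Ms, (law μ).real (B i) ≤ β := fun i hi => by
    have h1 := hcon i hi
    rw [hBd, hmu]
    rw [← hF] at h1
    exact h1
  have hleven : Even l := by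
    rw [hl]
    exact (hm.add hM).add hm
  -- the step inequality
  have hstep : ∀ i < Ms, ∀ c g : ℝ,
      g ≤ max 0 (∫ η, (clip c H (F i η + Y) - clip c H (F i η)) ∂(law μ) - Y * δ) →
      g + ∫ η, clip c H (F i η) ∂(law μ) - Y / 4 ≤ ∫ η, clip c H (F (i + 1) η) ∂(law μ) := by
    intro i hi c g hg
    by_contra hc
    rw [not_le] at hc
    have e1 : N₀ + i * l + l = N₀ + (i + 1) * l := by ring
    have h1 := step (μ := μ) hμ (N := N₀ + i * l) (J := J) (Z := Z) (q := q) (wc := wc) (b := b)
      (Y := Y) (p := p) (A := A) (x := x) (δ := δ) hm hM (hN.add (hleven.mul_left i)) hwc hwm hq1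
      hq hZ (by rw [← hl]; exact hJ.trans (Nat.le_add_right _ _)) hY hp0 hp hA hx (hδ i hi)
      (clip_lip c H) (g := g) (K := Y / 8) (by rw [← hF]; exact hg) (by linarith)
      (by
        rw [← hl, e1, ← hF, ← hF]
        linarith)
    rw [← hl, e1] at h1
    have h2 := var_clip (μ := μ) (N₀ + (i + 1) * l) (c := c) (H := H) (s := s) (β := β)
      hH0.le (hcon (i + 1) hi)
    have h3 := mul_le_mul_of_nonneg_left h2 (Nat.cast_nonneg (α := ℝ) q)
    linarith
  have hclipi : ∀ i c, Integrable (fun η => clip c H (F i η)) (law μ) := fun i c =>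
    (clip_lip c H).integrable (hFm i) (hFi i)
  obtain ⟨h, hh⟩ : ∃ h : ℕ → ℝ → ℝ, ∀ i c, h i c = ∫ η, clip c H (F i η) ∂(law μ) - c :=
    ⟨_, fun _ _ => rfl⟩
  have hhi : ∀ i c, h i c = ∫ η, (clip c H (F i η) - c) ∂(law μ) := fun i c => by
    rw [hh, integral_sub (hclipi i c) (integrable_const _), integral_const, probReal_univ,
      one_smul]
  have hhi' : ∀ i c, -h i c = ∫ η, (c - clip c H (F i η)) ∂(law μ) := fun i c => by
    rw [hh, integral_sub (integrable_const _) (hclipi i c), integral_const, probReal_univ,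
      one_smul]
    ring
  -- lower bound
  have hlow : ∀ i ≤ Ms, ∀ c r : ℝ, 0 ≤ r → r ≤ H → c + r ≤ mu i - s →
      r * (1 - β) - H * β ≤ h i c := by
    intro i hi c r hr0 hrH hc
    rw [hhi]
    have hint : Integrable (fun η => clip c H (F i η) - c) (law μ) :=
      (hclipi i c).sub (integrable_const _)
    refine mean_low hint (hBm i) (hBp i hi) (by linarith)
      (fun η hη => ?_) fun η => ?_
    · rw [hBd] at hη
      have h1 : |F i η - mu i| < s := not_le.1 hη
      have h2 := (abs_lt.1 h1).1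
      have h3 : c + r ≤ clip c H (F i η) :=
        le_max_of_le_right (le_min (by linarith) (by linarith))
      linarith
    · linarith [clip_ge c H (F i η)]
  -- upper bound
  have hup : ∀ i ≤ Ms, ∀ c r : ℝ, 0 ≤ r → r ≤ H → mu i + s ≤ c - r →
      h i c ≤ -(r * (1 - β) - H * β) := by
    intro i hi c r hr0 hrH hc
    have h0 : r * (1 - β) - H * β ≤ -h i c := by
      rw [hhi']
      have hint : Integrable (fun η => c - clip c H (F i η)) (law μ) :=
        (integrable_const _).sub (hclipi i c)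
      refine mean_low hint (hBm i) (hBp i hi) (by linarith)
        (fun η hη => ?_) fun η => ?_
      · rw [hBd] at hη
        have h1 : |F i η - mu i| < s := not_le.1 hη
        have h2 := (abs_lt.1 h1).2
        have h3 : clip c H (F i η) ≤ c - r :=
          max_le (by linarith) ((min_le_left _ _).trans (by linarith))
        linarith
      · linarith [clip_le c hH0.le (F i η)]
    linarith
  -- shift of the centre
  have hshift : ∀ i c, h i c - Y / 4 ≤ h i (c + Y / 4) := by
    intro i c
    rw [hh, hh]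
    have h1 := integral_mono (hclipi i c) (hclipi i (c + Y / 4)) fun η =>
      clip_mono_c H (by linarith) (F i η)
    linarith
  have hHβ : H * β ≤ H / 8 := by
    have := mul_le_mul_of_nonneg_left hβ1 hH0.le
    linarith
  -- the gain
  have hgain : ∀ i < Ms, ∀ c : ℝ, |c - mu i| ≤ H / 2 →
      Y * (3 / 4) ≤ ∫ η, (clip c H (F i η + Y) - clip c H (F i η)) ∂(law μ) - Y * δ := by
    intro i hi c hc
    rw [abs_le] at hc
    have hint : Integrable (fun η => clip c H (F i η + Y) - clip c H (F i η)) (law μ) :=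
      ((clip_lip c H).integrable ((hFm i).add_const Y) ((hFi i).add (integrable_const Y))).sub
        (hclipi i c)
    have h1 := mean_low hint (hBm i) (hBp i hi.le) (H := 0) (r := Y) (by linarith)
      (fun η hη => by
        rw [hBd] at hη
        have h1 : |F i η - mu i| < s := not_le.1 hη
        rw [abs_lt] at h1
        have e1 : clip c H (F i η) = F i η := by
          unfold clip
          rw [min_eq_left (by rw [hH] at hc ⊢; linarith), max_eq_right (by rw [hH] at hc ⊢; linarith)]
        have e2 : clip c H (F i η + Y) = F i η + Y := by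
          unfold clip
          rw [min_eq_left (by rw [hH] at hc ⊢; linarith), max_eq_right (by rw [hH] at hc ⊢; linarith)]
        show Y ≤ clip c H (F i η + Y) - clip c H (F i η)
        rw [e1, e2]
        linarith)
      (fun η => by
        show -0 ≤ clip c H (F i η + Y) - clip c H (F i η)
        have := (clip_lip c H).mono (show F i η ≤ F i η + Y by linarith)
        linarith)
    have h2 := mul_le_mul_of_nonneg_left hδ1 hY.le
    have h3 := mul_le_mul_of_nonneg_left hβ1 hY.le
    linarith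
  obtain ⟨c, hcd⟩ : ∃ c : ℕ → ℝ, ∀ i, c i = mu 0 - s - H / 7 + i * (Y / 4) := ⟨_, fun _ => rfl⟩
  have hind : ∀ i ≤ Ms, 0 ≤ h i (c i) := by
    intro i
    induction i with
    | zero =>
      intro _
      have h1 := hlow 0 (Nat.zero_le _) (c 0) (H / 7) (by linarith) (by linarith) (by
        rw [hcd]
        push_cast
        linarith)
      have h2 : H / 7 * β ≤ H / 7 * (1 / 8) := mul_le_mul_of_nonneg_left hβ1 (by linarith)
      linarith
    | succ i ih =>
      intro hi
      have hi' : i < Ms := by omega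
      have h0 := ih hi'.le
      have ec : c (i + 1) = c i + Y / 4 := by
        rw [hcd, hcd]
        push_cast
        ring
      have hsh := hshift (i + 1) (c i)
      rw [← ec] at hsh
      by_cases hcase : |c i - mu i| ≤ H / 2
      · have h1 := hstep i hi' (c i) (Y * (3 / 4)) (le_max_of_le_right (hgain i hi' _ hcase))
        have h2 : h (i + 1) (c i) ≥ h i (c i) + Y * (3 / 4) - Y / 4 := by
          rw [hh, hh]
          linarith
        linarith
      · rw [not_le, lt_abs] at hcase
        rcases hcase with hcase | hcase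
        · exfalso
          have h1 := hup i hi'.le (c i) (H / 2 - s) (by rw [hH]; linarith) (by linarith)
            (by linarith)
          have h2 : (H / 2 - s) * β ≤ (H / 2 - s) * (1 / 8) :=
            mul_le_mul_of_nonneg_left hβ1 (by rw [hH]; linarith)
          have h3 : H / 2 - s - (H / 2 - s) * (1 / 8) - H / 8 > 0 := by
            rw [hH]
            linarith
          linarith
        · have h1 := hlow i hi'.le (c i) (H / 2 - s) (by rw [hH]; linarith) (by linarith)
            (by linarith)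
          have h2 : (H / 2 - s) * β ≤ (H / 2 - s) * (1 / 8) :=
            mul_le_mul_of_nonneg_left hβ1 (by rw [hH]; linarith)
          have h3 := hstep i hi' (c i) 0 (le_max_left _ _)
          have h4 : h (i + 1) (c i) ≥ h i (c i) - Y / 4 := by
            rw [hh, hh]
            linarith
          have h5 : H / 2 - s - (H / 2 - s) * (1 / 8) - H / 8 ≥ 2 * Y := by
            rw [hH]
            linarith
          linarith
  have hend := hind Ms le_rfl
  have hmuM : mu Ms ≤ 0 := by
    rw [hmu, hF]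
    exact hneg
  have hmu0 : -E₀ ≤ mu 0 := by
    rw [hmu, hF]
    simpa using hE
  have hcM : s + 2 * H / 7 < c Ms - 0 + (s + H / 7) := by
    rw [hcd]
    have : (Ms : ℝ) * (Y / 4) = Ms * Y / 4 := by ring
    linarith
  have h1 := hup Ms le_rfl (c Ms) (min H (c Ms - mu Ms - s)) (le_min hH0.le (by
      rw [hcd]
      have : (Ms : ℝ) * (Y / 4) = Ms * Y / 4 := by ring
      linarith)) (min_le_left _ _) (by linarith [min_le_right H (c Ms - mu Ms - s)])
  have h2 : H / 7 < min H (c Ms - mu Ms - s) := by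
    refine lt_min (by linarith) ?_
    rw [hcd]
    have : (Ms : ℝ) * (Y / 4) = Ms * Y / 4 := by ring
    linarith
  have h3 : min H (c Ms - mu Ms - s) * β ≤ min H (c Ms - mu Ms - s) * (1 / 8) :=
    mul_le_mul_of_nonneg_left hβ1 (by linarith)
  linarith

end

end Pool.Agent.W_7d29a1_h48
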