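import Pool.Agent.W_7d29a1_G.HB0
import Pool.Agent.W_7d29a1_h48.End

/-!
# Section B: the inequality between two octaves (helper48)
-/

namespace Pool.Agent.W_7d29a1_h48

open MeasureTheory ProbabilityTheory Filter Topology Pool.Agent.W_7d29a1_F Pool.Agent.W_7d29a1_h4g
open Pool.Agent.W_7d29a1_h47 (EM Nondeg)
open Pool.Agent.W_7d29a1_G
open Pool.Agent.W_7d29a1_h68 (cell mem_cell)

variable {μ : Measure ℝ} [IsProbabilityMeasure μ]

/-- The luck of direction `0` is concentrated if the octave is not soft. -/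
lemma conc_Fl (hμ : EM μ) {x N : ℕ} {α : ℝ} (hα : 3 ≤ α) (hns : ¬ Sf μ x α) (hN : N ≤ 2 * 2 ^ x) :
    (law μ).real {η | (2 : ℝ) ^ (-α) * EE μ (2 ^ x) ≤
      |Fl μ N η - ∫ ξ, Fl μ N ξ ∂(law μ)|} ≤ (2 : ℝ) ^ (-α) := by
  have hy0 : (0 : ℤ) ≤ (N : ℤ) / 2 := by omega
  have hy1 : (N : ℤ) / 2 ≤ N := by omega
  have hFe : Fl μ N = fun η => Real.log (W μ 0 η 0 N ((N : ℤ) / 2)) := by
    funext η
    unfold Fl X
    rw [neg_neg]
  have h5 : (2 : ℝ) ^ (1 : ℝ) ≤ (2 : ℝ) ^ α :=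
    Real.rpow_le_rpow_of_exponent_le one_le_two (by linarith)
  rw [Real.rpow_one] at h5
  have hE1 := one_le_EE (μ := μ) (2 ^ x)
  have h := conc_of_not_Sf (μ := μ) hns (l := N) (by
      rw [Real.rpow_add two_pos, Real.rpow_natCast]
      have h2 : (0 : ℝ) < 2 ^ x := by positivity
      have h3 : (N : ℝ) ≤ 2 * 2 ^ x := by exact_mod_cast hN
      nlinarith)
    (G := fun η => W μ 0 η 0 N ((N : ℤ) / 2))
    ((poly_W 0 _ _).mono fun q hq => ⟨hq.1, by simpa using hq.2.1⟩)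
    (fun η => W_pos η 0 hy0 hy1)
    (fun η => by
      have := neg_X_le_V (μ := μ) (s := 0) η 0 hy0 hy1
      unfold X at this
      rwa [neg_neg] at this)
    (by
      have h1 := e_le_ep (μ := μ) hμ hy0 hy1
      have h2 := ep_le_EE (μ := μ) hN
      have h3 := EE_two (μ := μ) hμ (2 ^ x)
      have h4 : ∫ η, Real.log (W μ 0 η 0 N ((N : ℤ) / 2)) ∂(law μ) =
          -e μ 0 N ((N : ℤ) / 2) := by
        unfold e X
        rw [integral_neg, neg_neg]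
      have h6 : ep μ N ((N : ℤ) / 2) ≤ EE μ (2 * 2 ^ x) - 1 := h2
      have h7 : 2 * EE μ (2 ^ x) ≤ (2 : ℝ) ^ α * EE μ (2 ^ x) :=
        mul_le_mul_of_nonneg_right h5 (by linarith)
      rw [h4]
      linarith)
  rw [hFe]
  exact h.le

lemma int_Fl_nonpos (hμ : EM μ) {N : ℕ} (hN : Even N) : ∫ ξ, Fl μ N ξ ∂(law μ) ≤ 0 := by
  rcases Nat.eq_zero_or_pos N with h0 | h0
  · have h1 : ∀ ξ, Fl μ N ξ = 0 := by
      intro ξ
      rw [h0]
      unfold Fl X W WR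
      simp [Zr]
    simp only [h1, integral_zero, le_refl]
  · obtain ⟨k, hk⟩ := hN
    have h1 := J_le_e (μ := μ) hμ (n := N) (y := (N : ℤ) / 2) h0 (by omega) (by omega)
    have h2 : (((N : ℤ) / 2 : ℤ) : ℝ) = (N : ℝ) / 2 := by
      have h3 : (N : ℤ) / 2 = k := by omega
      rw [h3, hk]
      push_cast
      ring
    rw [h2, sub_self, zero_div, J_zero hμ, mul_zero] at h1
    have h3 : ∫ ξ, Fl μ N ξ ∂(law μ) = -e μ 0 N ((N : ℤ) / 2) := by
      unfold Fl e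
      rw [integral_neg]
    rw [h3]
    linarith

lemma int_Fl_ge (hμ : EM μ) {N n : ℕ} (hN : N ≤ n) : -EE μ n ≤ ∫ ξ, Fl μ N ξ ∂(law μ) := by
  have h1 := e_le_ep (μ := μ) hμ (n := N) (y := (N : ℤ) / 2) (by omega) (by omega)
  have h2 : ep μ N ((N : ℤ) / 2) ≤ EE μ n - 1 := ep_le_EE (μ := μ) hN
  have h3 : ∫ ξ, Fl μ N ξ ∂(law μ) = -e μ 0 N ((N : ℤ) / 2) := by
    unfold Fl e
    rw [integral_neg]
  rw [h3]
  linarith

/-- The inequality between the octaves `y` and `x`. -/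
theorem hb_main (hμ : EM μ) {T y x M q : ℕ} {K p R R' c1 D1 δ CZ α : ℝ}
    (hK : K = 8 * (2 * D1 + 2)) (hD1 : 0 ≤ D1) (hc1 : 0 < c1) (hc1' : c1 ≤ 1)
    (hδ : δ = (1 / 2) ^ (T + 3)) (hq : 4 * |R| / c1 + 1 ≤ q) (hCZ : CZ = 2 * |R'| / c1 + 2)
    (hy1 : 1 ≤ y) (hw : 2 / c1 ≤ vA μ 1 (2 ^ y) * 2 ^ y) (hTx : y + (T + 8) ≤ x)
    (hgrow : EE μ (2 ^ x) * 2 ^ (T + 7) ≤ EE μ (2 ^ y) * 2 ^ (x - y))
    (hlog : Real.log (2 * (CZ * 2 ^ (x - y))) + 1 ≤ 3 / 2 * EE μ (2 ^ y))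
    (hin : ∀ u : ℤ, 0 ≤ u → u ≤ 2 ^ y → |(u : ℝ) - 2 ^ y / 2| ≤ c1 * (vA μ 1 (2 ^ y) * 2 ^ y) →
      ep μ (2 ^ y) u ≤ D1 * EE μ (2 ^ y))
    (hMe : Even M) (hM : M ≤ 2 ^ T * 2 ^ y) (hp0 : 0 < p)
    (hp : p ≤ (law μ).real {η | Ev μ (R * (vA μ 1 (2 ^ y) * 2 ^ y)) (K * EE μ (2 ^ y)) M 0 η})
    (hconf : ∀ N : ℕ, Even N → 2 ^ x ≤ N → N ≤ 2 * 2 ^ x → ∀ t : ℕ, t ≤ N → 1 - δ ≤
      ∫ η, ∑ p ∈ cell (R' * (vA μ 1 (2 ^ x) * 2 ^ x)) t, pin μ 0 η t (N - t) ((N : ℤ) / 2) p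
        ∂(law μ))
    (hvv : vA μ 1 (2 ^ y) * 2 ^ y ≤ vA μ 1 (2 ^ x) * 2 ^ x)
    (hvm : vA μ 1 (2 ^ x) ≤ vA μ 1 (2 ^ y)) (hα : 3 ≤ α) (hns : ¬ Sf μ x α) :
    p * 2 ^ (x - y - T - 2) * (K * EE μ (2 ^ y) / 8) ^ 2 /
        (2 * (CZ * ((vA μ 1 (2 ^ x) * 2 ^ x) / (vA μ 1 (2 ^ y) * 2 ^ y)))) ≤
      q * (65 * ((2 : ℝ) ^ (-α) * EE μ (2 ^ x)) ^ 2 +
        512 * (K * EE μ (2 ^ y)) ^ 2 * (2 : ℝ) ^ (-α)) := by
  obtain ⟨m, hm⟩ : ∃ m : ℕ, m = 2 ^ y := ⟨_, rfl⟩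
  obtain ⟨E, hE⟩ : ∃ E, E = EE μ (2 ^ y) := ⟨_, rfl⟩
  obtain ⟨E', hE'⟩ : ∃ E', E' = EE μ (2 ^ x) := ⟨_, rfl⟩
  obtain ⟨w, hwd⟩ : ∃ w, w = vA μ 1 (2 ^ y) * 2 ^ y := ⟨_, rfl⟩
  obtain ⟨w', hwd'⟩ : ∃ w', w' = vA μ 1 (2 ^ x) * 2 ^ x := ⟨_, rfl⟩
  obtain ⟨β, hβ⟩ : ∃ β, β = (2 : ℝ) ^ (-α) := ⟨_, rfl⟩
  obtain ⟨s, hs⟩ : ∃ s, s = β * E' := ⟨_, rfl⟩
  obtain ⟨Y, hY⟩ : ∃ Y, Y = K * E := ⟨_, rfl⟩
  rw [← hwd, ← hE] at hp hin
  rw [← hwd] at hw hvv ⊢
  rw [← hwd'] at hconf hvv ⊢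
  rw [← hE] at hgrow hlog ⊢
  rw [← hE'] at hgrow ⊢
  rw [← hβ, ← hs, ← hY]
  rw [← hY] at hp
  have hE1 : 1 ≤ E := by
    rw [hE]
    exact one_le_EE _
  have hE1' : 1 ≤ E' := by
    rw [hE']
    exact one_le_EE _
  have hEE : E ≤ E' := by
    rw [hE, hE']
    exact EE_mono (Nat.pow_le_pow_right (by norm_num) (by omega))
  have hw0 : 0 < w := lt_of_lt_of_le (by positivity) hw
  have hw0' : 0 < w' := lt_of_lt_of_le hw0 hvv
  have hβ0 : 0 < β := by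
    rw [hβ]
    exact Real.rpow_pos_of_pos two_pos _
  have hβ8 : β ≤ 1 / 8 := by
    have h2 : (2 : ℝ) ^ (-α) ≤ (2 : ℝ) ^ (-3 : ℝ) :=
      Real.rpow_le_rpow_of_exponent_le one_le_two (by linarith)
    have h3 : (2 : ℝ) ^ (-3 : ℝ) = 1 / 8 := by
      rw [Real.rpow_neg two_pos.le]
      norm_num
    rw [hβ]
    rwa [h3] at h2
  have hs0 : 0 ≤ s := by
    rw [hs]
    positivity
  have hK16 : 16 ≤ K := by
    rw [hK]
    linarith
  have hY0 : 0 < Y := by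
    rw [hY]
    positivity
  have hδ0 : 0 < δ := by
    rw [hδ]
    positivity
  have hδ8 : δ ≤ 1 / 8 := by
    rw [hδ, pow_add]
    have h1 : ((1 : ℝ) / 2) ^ T ≤ 1 := pow_le_one₀ (by norm_num) (by norm_num)
    nlinarith
  have hCZ2 : 2 ≤ CZ := by
    rw [hCZ]
    have : 0 ≤ 2 * |R'| / c1 := by positivity
    linarith
  -- the width of the cells
  obtain ⟨wc, hwc⟩ : ∃ wc : ℤ, wc = ⌊c1 * w⌋ := ⟨_, rfl⟩
  have hc1w : 2 ≤ c1 * w := by
    rw [div_le_iff₀ hc1] at hw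
    linarith
  have hwc1 : (wc : ℝ) ≤ c1 * w := by
    rw [hwc]
    exact Int.floor_le _
  have hwc2 : c1 * w / 2 ≤ wc := by
    have h1 : c1 * w < ⌊c1 * w⌋ + 1 := Int.lt_floor_add_one _
    rw [← hwc] at h1
    linarith
  have hwc0 : 0 < wc := by
    have : (0 : ℝ) < wc := by linarith
    exact_mod_cast this
  have hwcr : (0 : ℝ) < wc := by exact_mod_cast hwc0
  have hv2 : vA μ 1 (2 ^ y) ≤ 1 / 2 := vA_le hμ zero_le_one _
  have hmr : (m : ℝ) = 2 ^ y := by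
    rw [hm]
    push_cast
    ring
  have hwm : 2 * wc ≤ (m : ℤ) := by
    have h1 : c1 * w ≤ 1 * (1 / 2 * 2 ^ y) := by
      refine mul_le_mul hc1' ?_ hw0.le zero_le_one
      rw [hwd]
      exact mul_le_mul_of_nonneg_right hv2 (by positivity)
    have h2 : (2 * wc : ℝ) ≤ (m : ℝ) := by
      rw [hmr]
      linarith
    exact_mod_cast h2
  -- the window
  obtain ⟨Z, hZ⟩ : ∃ Z : ℕ, Z = ⌈|R'| * w' / wc⌉₊ + 1 := ⟨_, rfl⟩
  have hZ1 : 1 ≤ Z := by omega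
  have hZlow : |R'| * w' < Z * wc := by
    have h1 := Nat.le_ceil (|R'| * w' / wc)
    rw [div_le_iff₀ hwcr] at h1
    rw [hZ]
    push_cast
    linarith
  have hZup : (Z : ℝ) ≤ CZ * (w' / w) := by
    have h1 := Nat.ceil_lt_add_one (show 0 ≤ |R'| * w' / wc by positivity)
    have h2 : |R'| * w' / wc ≤ 2 * |R'| / c1 * (w' / w) := by
      have e : 2 * |R'| / c1 * (w' / w) = |R'| * w' / (c1 * w / 2) := by
        field_simp
      rw [e]
      exact div_le_div_of_nonneg_left (by positivity) (by positivity) hwc2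
    have h3 : 1 ≤ w' / w := by
      rw [le_div_iff₀ hw0]
      linarith
    rw [hZ, hCZ]
    push_cast
    nlinarith
  have hww : w' / w ≤ 2 ^ (x - y) := by
    rw [div_le_iff₀ hw0, hwd, hwd']
    have h1 : (2 : ℝ) ^ x = 2 ^ (x - y) * 2 ^ y := by
      rw [← pow_add]
      congr 1
      omega
    rw [h1]
    have h2 : (0 : ℝ) < 2 ^ (x - y) * 2 ^ y := by positivity
    nlinarith
  have hZpos : (0 : ℝ) < Z := by exact_mod_cast (lt_of_lt_of_le one_pos hZ1)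
  -- the slab
  obtain ⟨l, hl⟩ : ∃ l : ℕ, l = m + M + m := ⟨_, rfl⟩
  have hlle : l ≤ 2 ^ (T + 2) * m := by
    rw [hl]
    have h1 : 1 ≤ 2 ^ T := Nat.one_le_two_pow
    have h2 : 2 ^ (T + 2) = 4 * 2 ^ T := by ring
    rw [h2]
    rw [← hm] at hM
    nlinarith
  obtain ⟨J, hJd⟩ : ∃ J : ℕ, J = 2 ^ (x - y - T - 2) := ⟨_, rfl⟩
  have hJl : J * l ≤ 2 ^ x := by
    calc J * l ≤ J * (2 ^ (T + 2) * m) := Nat.mul_le_mul_left _ hlle
      _ = 2 ^ x := by
        rw [hJd, hm, ← pow_add, ← pow_add]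
        congr 1
        omega
  have hmeven : Even m := by
    rw [hm]
    obtain ⟨y', hy'⟩ : ∃ y', y = y' + 1 := ⟨y - 1, by omega⟩
    rw [hy', pow_succ]
    exact Even.mul_left even_two _
  have hxeven : Even (2 ^ x) := by
    obtain ⟨x', hx'⟩ : ∃ x', x = x' + 1 := ⟨x - 1, by omega⟩
    rw [hx', pow_succ]
    exact Even.mul_left even_two _
  have hleven : Even l := by
    rw [hl]
    exact (hmeven.add hMe).add hmeven
  obtain ⟨mh, hmh⟩ := id hmeven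
  have hNle : ∀ i ≤ J, 2 ^ x + i * l ≤ 2 * 2 ^ x := by
    intro i hi
    have h1 : i * l ≤ J * l := Nat.mul_le_mul_right l hi
    omega
  have hmd : (((m + M + m : ℕ) : ℤ) / 2) = md l := by
    unfold md
    rw [hl]
  have hxc : ∫ η, max (X μ 0 η 0 (m + M + m) (((m + M + m : ℕ) : ℤ) / 2)) 0 ∂(law μ) ≤
      2 ^ (T + 2) * E := by
    have h1 : ep μ l (md l) ≤ EE μ (2 ^ (T + 2) * 2 ^ y) - 1 := ep_le_EE (by rw [← hm]; exact hlle)
    have h2 := EE_mul (μ := μ) hμ (2 ^ (T + 2)) (2 ^ y) Nat.one_le_two_pow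
    rw [hmd, ← hl]
    push_cast at h2
    rw [← hE] at h2
    have h3 : ∫ η, max (X μ 0 η 0 l (md l)) 0 ∂(law μ) = ep μ l (md l) := rfl
    rw [h3]
    linarith
  have key := many (μ := μ) hμ (m := m) (M := M) (N₀ := 2 ^ x) (J := J) (Z := Z) (q := q)
    (Ms := J) (wc := wc) (b := R * w) (Y := Y) (p := p) (A := D1 * E) (x := 2 ^ (T + 2) * E)
    (δ := δ) (β := β) (s := s) (E₀ := E') hmeven hMe hxeven hwc0 hwm
    (by
      have h1 : (0 : ℝ) < q := lt_of_lt_of_le (by positivity) hq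
      exact_mod_cast h1)
    (by
      have h1 : R * w ≤ |R| * w := mul_le_mul_of_nonneg_right (le_abs_self R) hw0.le
      have h2 : (4 * |R| / c1 + 1) * (c1 * w / 2) ≤ q * wc :=
        mul_le_mul hq hwc2 (by positivity) (by positivity)
      have h3 : (4 * |R| / c1 + 1) * (c1 * w / 2) = 2 * (|R| * w) + c1 * w / 2 := by
        field_simp
        ring
      rw [h3] at h2
      linarith)
    hZ1 (by rw [← hl]; exact hJl) hY0 hp0 hp
    (fun u hu1 hu2 => by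
      have h1 := hin u (by omega) (by
        have : u ≤ (m : ℤ) := by omega
        rw [hm] at this
        exact_mod_cast this) (by
        have e1 : ((m : ℤ) / 2 : ℤ) = mh := by omega
        have e2 : (2 : ℝ) ^ y / 2 = mh := by
          rw [← hmr, hmh]
          push_cast
          ring
        rw [e1] at hu1 hu2
        rw [e2, abs_le]
        have h3 : (mh : ℝ) - wc ≤ u := by exact_mod_cast hu1
        have h4 : (u : ℝ) ≤ mh + wc := by exact_mod_cast hu2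
        constructor <;> linarith)
      have h2 : ∫ η, max (X μ 0 η 0 m u) 0 ∂(law μ) = ep μ (2 ^ y) u := by
        rw [← hm]
        rfl
      rw [h2]
      exact h1)
    hxc
    (fun i hi t hte ht => by
      rw [← hl] at ht ⊢
      have hNi := hNle i hi.le
      have h1 := hconf (2 ^ x + i * l) (hxeven.add (hleven.mul_left i)) (by omega) hNi t ht
      refine h1.trans ?_
      have hmeas : ∀ I : Finset ℤ, Measurable fun η =>
          ∑ p ∈ I, pin μ 0 η t (2 ^ x + i * l - t) (((2 ^ x + i * l : ℕ) : ℤ) / 2) p := fun I =>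
        Finset.measurable_sum _ fun p _ => pin_meas _ _ _ _
      have hbnd : ∀ I : Finset ℤ, I ⊆ Finset.Icc (0 : ℤ) t → Integrable (fun η =>
          ∑ p ∈ I, pin μ 0 η t (2 ^ x + i * l - t) (((2 ^ x + i * l : ℕ) : ℤ) / 2) p) (law μ) :=
        fun I hI => bint (hmeas I) (a := 1) fun η => by
          rw [abs_of_nonneg (Finset.sum_nonneg fun p _ => pin_nonneg _ _ _ _ _)]
          exact pin_sum_le η t _ (by omega) (by omega) I hI
      refine integral_mono (hbnd _ fun p hp => (mem_cell.1 hp).1)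
        (hbnd _ (Finset.filter_subset _ _)) fun η => ?_
      refine Finset.sum_le_sum_of_subset_of_nonneg (fun p hp => ?_)
        fun p _ _ => pin_nonneg _ _ _ _ _
      obtain ⟨hp1, hp2⟩ := mem_cell.1 hp
      unfold win
      rw [Finset.mem_filter]
      refine ⟨hp1, ?_⟩
      obtain ⟨th, hth⟩ := hte
      have e1 : (t : ℤ) / 2 = th := by omega
      have e2 : (t : ℝ) / 2 = th := by
        rw [hth]
        push_cast
        ring
      rw [e2] at hp2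
      rw [e1]
      have h3 : R' * w' ≤ |R'| * w' := mul_le_mul_of_nonneg_right (le_abs_self R') hw0'.le
      have h4 := abs_le.1 (hp2.trans (h3.trans hZlow.le))
      have h5 : (p : ℝ) - th < Z * wc := lt_of_le_of_lt ((le_abs_self _).trans (hp2.trans h3)) hZlow
      constructor
      · rw [Int.le_ediv_iff_mul_le hwc0]
        have h6 : (-(Z : ℝ)) * wc ≤ (p : ℝ) - th := by linarith [h4.1]
        exact_mod_cast h6
      · rw [Int.ediv_lt_iff_lt_mul hwc0]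
        exact_mod_cast h5)
    hδ8 hβ8 hβ0.le hs0
    (fun i hi => by
      rw [← hl]
      have h1 := conc_Fl (μ := μ) hμ hα hns (hNle i hi)
      rw [← hβ, ← hE', ← hs] at h1
      exact h1)
    (by
      have h1 : Real.log (2 * Z) ≤ Real.log (2 * (CZ * 2 ^ (x - y))) := by
        refine Real.log_le_log (by positivity) ?_
        have h2 : CZ * (w' / w) ≤ CZ * 2 ^ (x - y) := mul_le_mul_of_nonneg_left hww (by linarith)
        linarith
      have h2 : 2 ^ (T + 2) * E * δ = E / 2 := by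
        rw [hδ]
        have h3 : (2 : ℝ) ^ (T + 2) * (1 / 2) ^ (T + 3) = 1 / 2 := by
          have h4 : ((1 : ℝ) / 2) ^ (T + 3) = (1 / 2) ^ (T + 2) * (1 / 2) := pow_succ _ _
          rw [h4, ← mul_assoc, ← mul_pow]
          norm_num
        calc 2 ^ (T + 2) * E * (1 / 2) ^ (T + 3) = (2 ^ (T + 2) * (1 / 2) ^ (T + 3)) * E := by ring
          _ = E / 2 := by rw [h3]; ring
      rw [h2, hY, hK]
      linarith)
    (by
      rw [← hl]
      exact int_Fl_nonpos hμ (hxeven.add (hleven.mul_left J)))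
    (by
      rw [hE']
      exact int_Fl_ge hμ le_rfl)
    (by
      have hs8 : s ≤ E' / 8 := by
        rw [hs]
        nlinarith
      obtain ⟨k, hk⟩ : ∃ k, x - y = T + 8 + k := ⟨x - y - (T + 8), by omega⟩
      have hJr : (J : ℝ) = 64 * 2 ^ k := by
        rw [hJd, show x - y - T - 2 = 6 + k by omega]
        push_cast
        rw [pow_add]
        norm_num
      have hE2 : E' ≤ E * (2 * 2 ^ k) := by
        rw [hk] at hgrow
        have h1 : (2 : ℝ) ^ (T + 8 + k) = (2 * 2 ^ k) * 2 ^ (T + 7) := by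
          rw [show T + 8 + k = T + 7 + (k + 1) by omega, pow_add 2 (T + 7), pow_succ 2 k]
          ring
        rw [h1, ← mul_assoc] at hgrow
        exact le_of_mul_le_mul_right hgrow (by positivity)
      have hk1 : (1 : ℝ) ≤ 2 ^ k := one_le_pow₀ one_le_two
      have hY16 : 16 * E ≤ Y := by
        rw [hY]
        nlinarith
      rw [hJr]
      have h2 : E * 2 ^ k ≤ Y / 16 * 2 ^ k := mul_le_mul_of_nonneg_right (by linarith) (by positivity)
      have h3 : Y ≤ Y * 2 ^ k := le_mul_of_one_le_right hY0.le hk1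
      nlinarith)
  -- the conclusion
  have hZ2 : p * J * (Y / 8) ^ 2 / (2 * (CZ * (w' / w))) ≤ p * J * (Y / 8) ^ 2 / (2 * Z) :=
    div_le_div_of_nonneg_left (by positivity) (by positivity) (by linarith)
  have hJr : (J : ℝ) = 2 ^ (x - y - T - 2) := by
    rw [hJd]
    push_cast
    ring
  rw [hJr] at hZ2 key
  refine hZ2.trans (key.trans (mul_le_mul_of_nonneg_left ?_ (Nat.cast_nonneg _)))
  have h1 : (2 * (8 * (Y + s))) ^ 2 ≤ 512 * (Y ^ 2 + s ^ 2) := by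
    nlinarith [sq_nonneg (Y - s)]
  have h2 := mul_le_mul_of_nonneg_right h1 hβ0.le
  have h3 : s ^ 2 * β ≤ s ^ 2 * (1 / 8) := mul_le_mul_of_nonneg_left hβ8 (sq_nonneg s)
  nlinarith

end Pool.Agent.W_7d29a1_h48
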