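import Pool.Agent.W_7d29a1_h48.HBa

/-!
# Section B: the theorem (helper48)

Softness is transferred from an octave `y` to the octaves `x ≥ y` with the volume gain of the blocks.
-/

namespace Pool.Agent.W_7d29a1_h48

open MeasureTheory ProbabilityTheory Filter Topology Pool.Agent.W_7d29a1_F Pool.Agent.W_7d29a1_h4g
open Pool.Agent.W_7d29a1_h47 (EM Nondeg)
open Pool.Agent.W_7d29a1_G

/-- Luck by any number of units in the tube, with positive probability, after a soft octave (helper21). -/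
def CoreH (μ : Measure ℝ) : Prop :=
  ∀ a₁ : ℝ, ∃ T : ℕ, ∀ K : ℝ, ∃ (p R : ℝ) (x₀ : ℕ), 0 < p ∧ ∀ y : ℕ, x₀ ≤ y → Sf μ y a₁ →
    ∃ M : ℕ, Even M ∧ M ≤ 2 ^ T * 2 ^ y ∧
      p ≤ (law μ).real {η | Ev μ (R * (vA μ 1 (2 ^ y) * 2 ^ y)) (K * EE μ (2 ^ y)) M 0 η}

/-- The inner cone, at the time of the octave. -/
def InH (μ : Measure ℝ) : Prop :=
  ∃ (c₀ C₁ : ℝ) (n₁ : ℕ), 0 < c₀ ∧ ∀ n : ℕ, n₁ ≤ n → ∀ u : ℤ, 0 ≤ u → u ≤ n →
    |(u : ℝ) - n / 2| ≤ c₀ * (vA μ 1 n * n) → ep μ n u ≤ C₁ * EE μ n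

variable {μ : Measure ℝ} [IsProbabilityMeasure μ]

lemma width_atTop (hμ : EM μ) (hnd : Nondeg μ) (hinf : Tendsto (EE μ) atTop atTop) :
    Tendsto (fun n : ℕ => vA μ 1 n * n) atTop atTop := by
  have hJ := J_pos hμ hnd (v := 1 / 2) (by norm_num) le_rfl
  rw [tendsto_atTop]
  intro b
  filter_upwards [vA_lt_half hμ hnd (A := 1) zero_le_one,
    hinf.eventually_ge_atTop (2 * J μ (1 / 2) * b)] with n h h2
  have h3 : EE μ n ≤ 2 * J μ (1 / 2) * (vA μ 1 n * n) := by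
    have hp := vA_pos hμ one_pos n
    have h1 := vA_eq' hμ zero_le_one h
    rw [one_mul] at h1
    have h2 := J_mul hμ (v := vA μ 1 n) (t := 1 / 2 / vA μ 1 n) hp.le
      (by rw [le_div_iff₀ hp]; linarith) (by rw [div_mul_cancel₀ _ hp.ne'])
    rw [div_mul_cancel₀ _ hp.ne', div_mul_eq_mul_div, div_le_iff₀ hp] at h2
    have hn : (0 : ℝ) ≤ n := Nat.cast_nonneg n
    have h3 := mul_le_mul_of_nonneg_left h2 hn
    nlinarith
  have h4 : 2 * J μ (1 / 2) * b ≤ 2 * J μ (1 / 2) * (vA μ 1 n * n) := h2.trans h3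
  exact le_of_mul_le_mul_left h4 (by positivity)

/-- **Section B**, from the confinement, the inner cone and the luck in the tube. -/
theorem hb_of (hμ : EM μ) (hnd : Nondeg μ) (hEE : Tendsto (EE μ) atTop atTop)
    (hconf : ConfH μ) (hin : InH μ) (hcore : CoreH μ) : HB μ 3 := by
  intro a₁
  obtain ⟨c₀, C₁, n₁, hc₀, hin⟩ := hin
  obtain ⟨c1, hc1d⟩ : ∃ c1, c1 = min c₀ 1 := ⟨_, rfl⟩
  obtain ⟨D1, hD1d⟩ : ∃ D1, D1 = max C₁ 0 := ⟨_, rfl⟩
  have hc1 : 0 < c1 := by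
    rw [hc1d]
    exact lt_min hc₀ one_pos
  have hc11 : c1 ≤ 1 := by
    rw [hc1d]
    exact min_le_right _ _
  have hc10 : c1 ≤ c₀ := by
    rw [hc1d]
    exact min_le_left _ _
  have hD1 : 0 ≤ D1 := by
    rw [hD1d]
    exact le_max_right _ _
  have hD11 : C₁ ≤ D1 := by
    rw [hD1d]
    exact le_max_left _ _
  obtain ⟨T, hT⟩ := hcore a₁
  obtain ⟨K, hK⟩ : ∃ K, K = 8 * (2 * D1 + 2) := ⟨_, rfl⟩
  have hK0 : 0 < K := by
    rw [hK]
    positivity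
  obtain ⟨p, R, x₀, hp, hR⟩ := hT K
  obtain ⟨δ, hδ⟩ : ∃ δ : ℝ, δ = (1 / 2) ^ (T + 3) := ⟨_, rfl⟩
  obtain ⟨R', n₀, hR'⟩ := hconf δ (by
    rw [hδ]
    positivity)
  obtain ⟨q, hqd⟩ : ∃ q : ℕ, q = ⌈4 * |R| / c1⌉₊ + 1 := ⟨_, rfl⟩
  have hq : 4 * |R| / c1 + 1 ≤ q := by
    rw [hqd]
    push_cast
    have := Nat.le_ceil (4 * |R| / c1)
    linarith
  have hq0 : (0 : ℝ) < q := lt_of_lt_of_le (by positivity) hq
  obtain ⟨CZ, hCZ⟩ : ∃ CZ, CZ = 2 * |R'| / c1 + 2 := ⟨_, rfl⟩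
  have hCZ0 : 0 < CZ := by
    rw [hCZ]
    positivity
  obtain ⟨κ, hκ⟩ : ∃ κ, κ = p * K ^ 2 / (64 * 2 ^ (T + 3) * CZ * (q * (65 + 512 * K ^ 2))) :=
    ⟨_, rfl⟩
  have hκ0 : 0 < κ := by
    rw [hκ]
    positivity
  obtain ⟨C, hCd⟩ : ∃ C, C = max (|a₁| + (T + 8)) (Real.logb 2 (2 / κ)) := ⟨_, rfl⟩
  have hC1 : |a₁| + (T + 8) ≤ C := by
    rw [hCd]
    exact le_max_left _ _
  have hC2 : (2 : ℝ) ^ (-C) < κ := by
    have h1 : (2 : ℝ) ^ (-C) ≤ (2 : ℝ) ^ (-Real.logb 2 (2 / κ)) := by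
      refine Real.rpow_le_rpow_of_exponent_le one_le_two ?_
      have : Real.logb 2 (2 / κ) ≤ C := by
        rw [hCd]
        exact le_max_right _ _
      linarith
    have h2 : (2 : ℝ) ^ (-Real.logb 2 (2 / κ)) = κ / 2 := by
      rw [Real.rpow_neg two_pos.le, Real.rpow_logb two_pos (by norm_num) (by positivity), inv_div]
    linarith
  have hC0 : 0 ≤ C := by
    have : 0 ≤ |a₁| + (T + 8) := by positivity
    linarith
  refine ⟨C, fun Tw => ?_⟩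
  -- the thresholds
  obtain ⟨xg, hxg⟩ := ff_gg (μ := μ) hμ hnd one_pos
  have hpow : Tendsto (fun y : ℕ => (2 : ℕ) ^ y) atTop atTop :=
    tendsto_pow_atTop_atTop_of_one_lt one_lt_two
  obtain ⟨y₁, hy₁⟩ := eventually_atTop.1
    ((hpow.eventually ((width_atTop hμ hnd hEE).eventually_ge_atTop (2 / c1))).and
      (hpow.eventually (hEE.eventually_ge_atTop (Real.log (2 * (CZ * 2 ^ Tw)) + 1))))
  refine ⟨max (max xg x₀) (max (max n₁ n₀) (max y₁ 1)), fun y x hy hyx hxT hS => ?_⟩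
  have hyg : xg ≤ y := by omega
  have hyc : x₀ ≤ y := by omega
  have hyn1 : n₁ ≤ y := by omega
  have hyn0 : n₀ ≤ y := by omega
  have hyy : y₁ ≤ y := by omega
  have hy1 : 1 ≤ y := by omega
  obtain ⟨D, hD⟩ : ∃ D, D = ff μ 1 x - ff μ 1 y := ⟨_, rfl⟩
  obtain ⟨g, hg⟩ : ∃ g, g = gg μ x - gg μ y := ⟨_, rfl⟩
  have hD0 : 0 ≤ D := by
    have := ff_mono (μ := μ) hμ one_pos hyx
    linarith
  have hg0 : 0 ≤ g := by
    have := gg_mono (μ := μ) hyx
    linarith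
  have hfg : D ≤ ((x : ℝ) - y) - g := by
    have := hxg y x hyg hyx
    linarith
  rw [← hD, ← hg]
  by_cases hcase : T + 8 ≤ x - y ∧ g ≤ ((x : ℝ) - y) - (T + 7)
  · obtain ⟨hxy, hgT⟩ := hcase
    by_contra hns
    obtain ⟨α, hα⟩ : ∃ α, α = max (g - D / 2 + C) 3 := ⟨_, rfl⟩
    rw [← hα] at hns
    have hα3 : 3 ≤ α := by
      rw [hα]
      exact le_max_right _ _
    have hαC : g - D / 2 + C ≤ α := by
      rw [hα]
      exact le_max_left _ _
    obtain ⟨M, hM1, hM2, hM3⟩ := hR y hyc hS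
    obtain ⟨hyw, hyE⟩ := hy₁ y hyy
    have hcast : (((2 : ℕ) ^ y : ℕ) : ℝ) = 2 ^ y := by
      push_cast
      ring
    rw [hcast] at hyw
    obtain ⟨k, hk⟩ : ∃ k, x = y + k := ⟨x - y, by omega⟩
    have hxk : x - y = k := by omega
    have hkr : ((x : ℝ) - y) = k := by
      rw [hk]
      push_cast
      ring
    have hE1 := one_le_EE (μ := μ) (2 ^ y)
    have hE' : EE μ (2 ^ x) = (2 : ℝ) ^ g * EE μ (2 ^ y) := by
      rw [← two_rpow_gg (μ := μ) x, ← two_rpow_gg (μ := μ) y, ← Real.rpow_add two_pos, hg]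
      congr 1
      ring
    have hv : vA μ 1 (2 ^ y) = (2 : ℝ) ^ D * vA μ 1 (2 ^ x) := by
      rw [← two_rpow_ff (μ := μ) hμ one_pos x, ← two_rpow_ff (μ := μ) hμ one_pos y,
        ← Real.rpow_add two_pos, hD]
      congr 1
      ring
    have hvx := vA_pos (μ := μ) hμ one_pos (2 ^ x)
    have hvy := vA_pos (μ := μ) hμ one_pos (2 ^ y)
    obtain ⟨rr, hrr⟩ : ∃ rr : ℝ, rr = (2 : ℝ) ^ D := ⟨_, rfl⟩
    obtain ⟨r, hr⟩ : ∃ r : ℝ, r = (2 : ℝ) ^ (D / 2) := ⟨_, rfl⟩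
    have hr1 : 1 ≤ r := by
      rw [hr]
      exact Real.one_le_rpow one_le_two (by linarith)
    have hrr2 : rr = r ^ 2 := by
      rw [hrr, hr, ← Real.rpow_natCast, ← Real.rpow_mul two_pos.le]
      congr 1
      push_cast
      ring
    rw [← hrr] at hv
    have hrr1 : 1 ≤ rr := by
      rw [hrr2]
      nlinarith
    have h2x : (2 : ℝ) ^ x = 2 ^ k * 2 ^ y := by
      rw [hk, pow_add, mul_comm]
    have h2k : (2 : ℝ) ^ k = (2 : ℝ) ^ ((k : ℝ)) := (Real.rpow_natCast 2 k).symm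
    have hrrk : rr ≤ 2 ^ k := by
      rw [hrr, h2k]
      exact Real.rpow_le_rpow_of_exponent_le one_le_two (by linarith)
    -- the hypotheses
    have i1 : EE μ (2 ^ x) * 2 ^ (T + 7) ≤ EE μ (2 ^ y) * 2 ^ (x - y) := by
      have h1 : (2 : ℝ) ^ g * 2 ^ (T + 7) ≤ 2 ^ k := by
        rw [h2k, ← Real.rpow_natCast 2 (T + 7), ← Real.rpow_add two_pos]
        refine Real.rpow_le_rpow_of_exponent_le one_le_two ?_
        push_cast
        linarith
      rw [hE', hxk]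
      have h2 := mul_le_mul_of_nonneg_left h1 (zero_le_one.trans hE1)
      linarith
    have i2 : Real.log (2 * (CZ * 2 ^ (x - y))) + 1 ≤ 3 / 2 * EE μ (2 ^ y) := by
      have h1 : Real.log (2 * (CZ * 2 ^ (x - y))) ≤ Real.log (2 * (CZ * 2 ^ Tw)) := by
        refine Real.log_le_log (by positivity) ?_
        have h2 : (2 : ℝ) ^ (x - y) ≤ 2 ^ Tw := pow_le_pow_right₀ one_le_two (by omega)
        have h3 := mul_le_mul_of_nonneg_left h2 hCZ0.le
        linarith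
      linarith
    have i3 : ∀ u : ℤ, 0 ≤ u → u ≤ 2 ^ y →
        |(u : ℝ) - 2 ^ y / 2| ≤ c1 * (vA μ 1 (2 ^ y) * 2 ^ y) →
        ep μ (2 ^ y) u ≤ D1 * EE μ (2 ^ y) := by
      intro u hu0 hu1 hu2
      have hnn : n₁ ≤ 2 ^ y := hyn1.trans (Nat.lt_two_pow_self).le
      have h1 := hin (2 ^ y) hnn u hu0 (by
        push_cast
        exact hu1) (by
        rw [hcast]
        refine hu2.trans (mul_le_mul_of_nonneg_right hc10 ?_)
        positivity)
      exact h1.trans (mul_le_mul_of_nonneg_right hD11 (zero_le_one.trans hE1))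
    have i4 : ∀ N : ℕ, Even N → 2 ^ x ≤ N → N ≤ 2 * 2 ^ x → ∀ t : ℕ, t ≤ N → 1 - δ ≤
        ∫ η, ∑ p ∈ Pool.Agent.W_7d29a1_h68.cell (R' * (vA μ 1 (2 ^ x) * 2 ^ x)) t,
          pin μ 0 η t (N - t) ((N : ℤ) / 2) p ∂(law μ) :=
      fun N h1 h2 h3 t ht => hR' x ((hyn0.trans hyx).trans (Nat.lt_two_pow_self).le) N h1 h2 h3 t ht
    have i5 : vA μ 1 (2 ^ y) * 2 ^ y ≤ vA μ 1 (2 ^ x) * 2 ^ x := by
      rw [hv, h2x]
      have h1 : rr * (vA μ 1 (2 ^ x) * 2 ^ y) ≤ 2 ^ k * (vA μ 1 (2 ^ x) * 2 ^ y) :=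
        mul_le_mul_of_nonneg_right hrrk (by positivity)
      linarith
    have i6 : vA μ 1 (2 ^ x) ≤ vA μ 1 (2 ^ y) := by
      rw [hv]
      nlinarith
    have key := hb_main (μ := μ) hμ (T := T) (y := y) (x := x) (M := M) (q := q) (K := K) (p := p)
      (R := R) (R' := R') (c1 := c1) (D1 := D1) (δ := δ) (CZ := CZ) (α := α) hK hD1 hc1 hc11 hδ hq
      hCZ hy1 hyw (by omega) i1 i2 i3 hM1 hM2 hp hM3 i4 i5 i6 hα3 hns
    -- the numbers
    obtain ⟨E, hE⟩ : ∃ E, E = EE μ (2 ^ y) := ⟨_, rfl⟩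
    obtain ⟨β, hβ⟩ : ∃ β : ℝ, β = (2 : ℝ) ^ (-α) := ⟨_, rfl⟩
    obtain ⟨ρ, hρ⟩ : ∃ ρ : ℝ, ρ = (2 : ℝ) ^ (-C) := ⟨_, rfl⟩
    have hβ0 : 0 < β := by
      rw [hβ]
      exact Real.rpow_pos_of_pos two_pos _
    have hρ0 : 0 < ρ := by
      rw [hρ]
      exact Real.rpow_pos_of_pos two_pos _
    have hρ1 : ρ ≤ 1 := by
      rw [hρ]
      exact Real.rpow_le_one_of_one_le_of_nonpos one_le_two (by linarith)
    have hβ1 : β * (2 : ℝ) ^ g ≤ ρ * r := by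
      rw [hβ, hρ, hr, ← Real.rpow_add two_pos, ← Real.rpow_add two_pos]
      exact Real.rpow_le_rpow_of_exponent_le one_le_two (by linarith)
    have hg1 : (1 : ℝ) ≤ (2 : ℝ) ^ g := Real.one_le_rpow one_le_two hg0
    have hβ2 : β ≤ ρ * r := by
      refine le_trans ?_ hβ1
      nlinarith
    rw [hE', ← hE, ← hβ] at key
    rw [← hE] at hE1
    have hE0 : 0 < E := by linarith
    have hL : p * 2 ^ (x - y - T - 2) * (K * E / 8) ^ 2 /
        (2 * (CZ * ((vA μ 1 (2 ^ x) * 2 ^ x) / (vA μ 1 (2 ^ y) * 2 ^ y)))) =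
        p * K ^ 2 / (64 * 2 ^ (T + 3) * CZ) * (rr * E ^ 2) := by
      obtain ⟨j, hj⟩ : ∃ j, k = j + (T + 2) := ⟨k - (T + 2), by omega⟩
      have e1 : x - y - T - 2 = j := by omega
      rw [hv, h2x, e1, hj, pow_add 2 j, show T + 3 = (T + 2) + 1 by omega, pow_succ 2 (T + 2)]
      have h1 : (0 : ℝ) < 2 ^ j := by positivity
      have h2 : (0 : ℝ) < 2 ^ (T + 2) := by positivity
      have h3 : (0 : ℝ) < 2 ^ y := by positivity
      have h4 : 0 < rr := by linarith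
      field_simp
      ring
    have hRt : q * (65 * (β * ((2 : ℝ) ^ g * E)) ^ 2 + 512 * (K * E) ^ 2 * β) ≤
        q * (65 + 512 * K ^ 2) * ρ * (rr * E ^ 2) := by
      have h1 : (β * ((2 : ℝ) ^ g * E)) ^ 2 ≤ ρ * (rr * E ^ 2) := by
        have h2 : β * ((2 : ℝ) ^ g * E) ≤ ρ * r * E := by
          have := mul_le_mul_of_nonneg_right hβ1 hE0.le
          linarith
        have h3 := pow_le_pow_left₀ (by positivity) h2 2
        have h4 : (ρ * r * E) ^ 2 = ρ * (ρ * (rr * E ^ 2)) := by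
          rw [hrr2]
          ring
        have h5 : ρ * (ρ * (rr * E ^ 2)) ≤ 1 * (ρ * (rr * E ^ 2)) :=
          mul_le_mul_of_nonneg_right hρ1 (by positivity)
        linarith
      have h2 : (K * E) ^ 2 * β ≤ K ^ 2 * (ρ * (rr * E ^ 2)) := by
        have h3 : β ≤ ρ * rr := by
          refine hβ2.trans (mul_le_mul_of_nonneg_left ?_ hρ0.le)
          rw [hrr2]
          nlinarith
        have h4 := mul_le_mul_of_nonneg_left h3 (show 0 ≤ (K * E) ^ 2 by positivity)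
        refine h4.trans (le_of_eq ?_)
        ring
      have h3 : 65 * (β * ((2 : ℝ) ^ g * E)) ^ 2 + 512 * (K * E) ^ 2 * β ≤
          (65 + 512 * K ^ 2) * (ρ * (rr * E ^ 2)) := by
        have e1 : 512 * (K * E) ^ 2 * β = 512 * ((K * E) ^ 2 * β) := by ring
        rw [e1]
        nlinarith
      have h4 := mul_le_mul_of_nonneg_left h3 hq0.le
      refine h4.trans (le_of_eq ?_)
      ring
    rw [hL] at key
    have h1 := key.trans hRt
    have h2 : p * K ^ 2 / (64 * 2 ^ (T + 3) * CZ) ≤ q * (65 + 512 * K ^ 2) * ρ :=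
      le_of_mul_le_mul_right h1 (by positivity)
    have h3 : q * (65 + 512 * K ^ 2) * ρ < q * (65 + 512 * K ^ 2) * κ :=
      mul_lt_mul_of_pos_left (by rw [hρ]; exact hC2) (by positivity)
    have h4 : q * (65 + 512 * K ^ 2) * κ = p * K ^ 2 / (64 * 2 ^ (T + 3) * CZ) := by
      rw [hκ]
      field_simp
    linarith
  · have hDT : D ≤ T + 8 := by
      by_cases h1 : T + 8 ≤ x - y
      · have h2 : ¬ g ≤ ((x : ℝ) - y) - (T + 7) := fun h => hcase ⟨h1, h⟩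
        rw [not_le] at h2
        linarith
      · have h2 : x ≤ y + (T + 8) := by omega
        have h3 : (x : ℝ) ≤ y + (T + 8) := by exact_mod_cast h2
        linarith
    refine (hS.trans hyx).mono (le_trans ?_ (le_max_left _ _))
    rw [← hg]
    have h1 := le_abs_self a₁
    linarith

end Pool.Agent.W_7d29a1_h48
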